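import Pool.Agent.W809.FKM.Basic

/-!
# Basic API 2: time reversal and multiplication operators, `eA`, essentially unitary operators
-/

set_option autoImplicit false
set_option linter.unusedSectionVars false

open scoped ComplexConjugate
open Complex

namespace Pool.Agent.W809.FKM

variable {m : ℕ}

section latt

variable {Θ : HS m ≃ₗᵢ⋆[ℂ] HS m}

/-- `Θ (sg x v)` is supported at `x` -/
theorem T_sg_app (hX : CommX Θ) (x y : Lat) (v : Vm m) (h : y ≠ x) : (Θ (sg x v)) y = 0 := by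
  have h1 : ∀ z : Lat, ((x.1 : ℂ) • sg x v) z = (z.1 : ℂ) • (sg x v) z := by
    intro z
    rw [smul_app, sg_app]
    split_ifs with hz
    · rw [hz]
    · simp
  have h2 : ∀ z : Lat, ((x.2 : ℂ) • sg x v) z = (z.2 : ℂ) • (sg x v) z := by
    intro z
    rw [smul_app, sg_app]
    split_ifs with hz
    · rw [hz]
    · simp
  have a1 := hX.1 (sg x v) ((x.1 : ℂ) • sg x v) h1 y
  have a2 := hX.2 (sg x v) ((x.2 : ℂ) • sg x v) h2 y
  rw [Θ.map_smulₛₗ, smul_app] at a1 a2
  simp only [map_intCast] at a1 a2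
  by_contra h0
  have b1 : ((x.1 : ℂ) - y.1) • (Θ (sg x v)) y = 0 := by rw [sub_smul, a1, sub_self]
  have b2 : ((x.2 : ℂ) - y.2) • (Θ (sg x v)) y = 0 := by rw [sub_smul, a2, sub_self]
  rcases smul_eq_zero.1 b1 with c1 | c1
  · rcases smul_eq_zero.1 b2 with c2 | c2
    · apply h
      have d1 : (x.1 : ℂ) = y.1 := sub_eq_zero.1 c1
      have d2 : (x.2 : ℂ) = y.2 := sub_eq_zero.1 c2
      exact Prod.ext (by exact_mod_cast d1.symm) (by exact_mod_cast d2.symm)
    · exact h0 c2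
  · exact h0 c1

theorem T_M (hX : CommX Θ) {f : Lat → ℂ} {C : ℝ} (hf : ∀ x, ‖f x‖ ≤ C) (ψ : HS m) :
    M f (Θ ψ) = Θ (M (fun x => conj (f x)) ψ) := by
  have hf' : ∀ x, ‖conj (f x)‖ ≤ C := fun x => by rw [RCLike.norm_conj]; exact hf x
  have key : ∀ x v, M f (Θ (sg x v)) = Θ (M (fun x => conj (f x)) (sg x v)) := by
    intro x v
    rw [M_sg hf', Θ.map_smulₛₗ, conj_conj]
    refine HS.ext fun y => ?_
    rw [M_app hf, smul_app]
    by_cases h : y = x
    · rw [h]
    · rw [T_sg_app hX x y v h]; simp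
  have h1 : HasSum (fun x => M f (Θ (sg x (ψ x)))) (M f (Θ ψ)) := by
    have : HasSum (fun x => Θ (sg x (ψ x))) (Θ ψ) :=
      (hasSum_sg ψ).map (Θ : HS m ≃ₗᵢ⋆[ℂ] HS m) Θ.continuous
    exact this.mapL (M f)
  have h2 : HasSum (fun x => Θ (M (fun x => conj (f x)) (sg x (ψ x))))
      (Θ (M (fun x => conj (f x)) ψ)) :=
    (hasSum_op (M (fun x => conj (f x))) ψ).map (Θ : HS m ≃ₗᵢ⋆[ℂ] HS m) Θ.continuous
  simp only [key] at h1
  exact h1.unique h2

/-- bounded multiplication operators are `Θ`-odd -/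
theorem odd_M (hX : CommX Θ) {f : Lat → ℂ} {C : ℝ} (hf : ∀ x, ‖f x‖ ≤ C) : OddT Θ (M f) := by
  intro ψ
  rw [star_M hf]
  exact T_M hX hf ψ

/-- real bounded multiplication operators commute with `Θ` -/
theorem trs_M (hX : CommX Θ) {f : Lat → ℂ} {C : ℝ} (hf : ∀ x, ‖f x‖ ≤ C)
    (hr : ∀ x, conj (f x) = f x) : TRS Θ (M f) := by
  intro ψ
  rw [T_M hX hf]
  simp only [hr]

theorem trs_Lam (hX : CommX Θ) (S : Set Lat) : TRS Θ (Lam S) := by
  refine trs_M hX (ind_le S) fun x => ?_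
  by_cases h : x ∈ S
  · simp [h]
  · simp [h]

end latt

section abs

variable {E : Type} [NormedAddCommGroup E] [InnerProductSpace ℂ E] [CompleteSpace E]
  {Θ : E ≃ₗᵢ⋆[ℂ] E}

theorem TRS.mul {A B : E →L[ℂ] E} (hA : TRS Θ A) (hB : TRS Θ B) : TRS Θ (A * B) := by
  intro ψ
  change A (B (Θ ψ)) = Θ (A (B ψ))
  rw [hB, hA]

theorem TRS.add {A B : E →L[ℂ] E} (hA : TRS Θ A) (hB : TRS Θ B) : TRS Θ (A + B) := by
  intro ψ
  change A (Θ ψ) + B (Θ ψ) = Θ (A ψ + B ψ)
  rw [hB, hA, map_add]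

theorem TRS.sub {A B : E →L[ℂ] E} (hA : TRS Θ A) (hB : TRS Θ B) : TRS Θ (A - B) := by
  intro ψ
  change A (Θ ψ) - B (Θ ψ) = Θ (A ψ - B ψ)
  rw [hB, hA, map_sub]

theorem TRS.one : TRS Θ (1 : E →L[ℂ] E) := fun _ => rfl

theorem TRS.rsmul {A : E →L[ℂ] E} (c : ℝ) (hA : TRS Θ A) : TRS Θ ((c : ℂ) • A) := by
  intro ψ
  change (c : ℂ) • A (Θ ψ) = Θ ((c : ℂ) • A ψ)
  rw [Θ.map_smulₛₗ, hA]; simp

theorem TRS.star_mem (hΘ : ∀ x, Θ (Θ x) = -x) {A : E →L[ℂ] E} (hA : TRS Θ A) : TRS Θ (star A) := by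
  intro ψ
  refine ext_inner_left ℂ fun w => ?_
  rw [ContinuousLinearMap.star_eq_adjoint, ContinuousLinearMap.adjoint_inner_right]
  have h1 := inner_T' Θ hΘ ψ (A w)
  have h2 : inner ℂ (A w) (Θ ψ) = conj (inner ℂ (Θ ψ) (A w)) := (inner_conj_symm _ _).symm
  have h3 := inner_T' Θ hΘ ((ContinuousLinearMap.adjoint A) ψ) w
  rw [h2, h1, ← inner_conj_symm w, h3, ← hA, map_neg, map_neg, inner_conj_symm, inner_conj_symm,
    ContinuousLinearMap.adjoint_inner_left]

theorem OddT.add {A B : E →L[ℂ] E} (hA : OddT Θ A) (hB : OddT Θ B) : OddT Θ (A + B) := by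
  intro ψ
  rw [star_add]
  change A (Θ ψ) + B (Θ ψ) = Θ (star A ψ + star B ψ)
  rw [hB, hA, map_add]

theorem OddT.sub {A B : E →L[ℂ] E} (hA : OddT Θ A) (hB : OddT Θ B) : OddT Θ (A - B) := by
  intro ψ
  rw [star_sub]
  change A (Θ ψ) - B (Θ ψ) = Θ (star A ψ - star B ψ)
  rw [hB, hA, map_sub]

theorem OddT.smul {A : E →L[ℂ] E} (c : ℂ) (hA : OddT Θ A) : OddT Θ (c • A) := by
  intro ψ
  rw [star_smul]
  change c • A (Θ ψ) = Θ (conj c • star A ψ)
  rw [Θ.map_smulₛₗ, hA, conj_conj]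

theorem OddT.one : OddT Θ (1 : E →L[ℂ] E) := by
  intro ψ; rw [star_one]; rfl

theorem TRS.odd {A : E →L[ℂ] E} (hA : TRS Θ A) (hs : star A = A) : OddT Θ A := by
  intro ψ; rw [hs]; exact hA ψ

/-- `L V L` is odd when `V` is odd and `L` is symmetric and commutes with `Θ` -/
theorem OddT.conj {V L : E →L[ℂ] E} (hV : OddT Θ V) (hL : TRS Θ L) (hs : star L = L) :
    OddT Θ (L * V * L) := by
  intro ψ
  have e : star (L * V * L) = L * star V * L := by rw [star_mul, star_mul, hs, mul_assoc]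
  rw [e]
  change L (V (L (Θ ψ))) = Θ (L (star V (L ψ)))
  rw [hL, hV, hL]

theorem OddT.pow {V : E →L[ℂ] E} (hV : OddT Θ V) (n : ℕ) : OddT Θ (V ^ n) := by
  induction n with
  | zero => exact OddT.one
  | succ n ih =>
    intro ψ
    rw [star_pow, pow_succ']
    change V ((V ^ n) (Θ ψ)) = Θ ((star V ^ (n + 1)) ψ)
    rw [ih, hV, pow_succ', star_pow]
    rfl

theorem isClosed_odd (Θ : E ≃ₗᵢ⋆[ℂ] E) : IsClosed {F : E →L[ℂ] E | OddT Θ F} := by
  have e : {F : E →L[ℂ] E | OddT Θ F} = ⋂ ψ : E, {F : E →L[ℂ] E | F (Θ ψ) = Θ ((star F) ψ)} := by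
    ext F; simp [OddT]
  rw [e]
  refine isClosed_iInter fun ψ => isClosed_eq ?_ ?_
  · exact (ContinuousLinearMap.apply ℂ E (Θ ψ)).continuous
  · exact Θ.continuous.comp ((ContinuousLinearMap.apply ℂ E ψ).continuous.comp continuous_star)

theorem eA_hasSum (A : E →L[ℂ] E) :
    HasSum (fun n : ℕ => ((Nat.factorial n : ℂ)⁻¹ * (2 * (Real.pi : ℂ) * I) ^ n) • A ^ n) (eA A) := by
  have h := NormedSpace.exp_series_hasSum_exp' (𝕂 := ℂ) ((2 * (Real.pi : ℂ) * I) • A)
  have e : (fun n : ℕ => ((Nat.factorial n : ℂ)⁻¹ * (2 * (Real.pi : ℂ) * I) ^ n) • A ^ n) =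
      fun n : ℕ => ((Nat.factorial n : ℂ)⁻¹) • ((2 * (Real.pi : ℂ) * I) • A) ^ n := by
    funext n
    rw [smul_pow, smul_smul]
  rw [e]
  exact h

theorem continuous_eA : Continuous (eA : (E →L[ℂ] E) → (E →L[ℂ] E)) := by
  let +nondep : NormedAlgebra ℚ (E →L[ℂ] E) := .restrictScalars ℚ ℂ (E →L[ℂ] E)
  unfold eA
  exact NormedSpace.exp_continuous.comp (continuous_const_smul _)

theorem eA_unitary {A : E →L[ℂ] E} (hA : star A = A) :
    star (eA A) * eA A = 1 ∧ eA A * star (eA A) = 1 := by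
  let +nondep : NormedAlgebra ℚ (E →L[ℂ] E) := .restrictScalars ℚ ℂ (E →L[ℂ] E)
  have h : (2 * (Real.pi : ℂ) * I) • A ∈ skewAdjoint (E →L[ℂ] E) := by
    rw [skewAdjoint.mem_iff, star_smul, hA, ← neg_smul]
    congr 1
    simp
  exact Unitary.mem_iff.1 (NormedSpace.exp_mem_unitary_of_mem_skewAdjoint h)

theorem eA_odd {A : E →L[ℂ] E} (hA : star A = A) (hT : TRS Θ A) : OddT Θ (eA A) := by
  have h := eA_hasSum A
  have hc := isClosed_odd Θ
  refine hc.mem_of_tendsto h (Filter.Eventually.of_forall fun s => ?_)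
  induction s using Finset.cons_induction with
  | empty =>
    intro ψ
    simp
  | cons a s ha ih =>
    rw [Finset.sum_cons]
    exact OddT.add (((hT.odd hA).pow a).smul _) ih

/-- `eA` of a sum of operators with product zero -/
theorem eA_add {A B : E →L[ℂ] E} (h : A * B = B * A) : eA (A + B) = eA A * eA B := by
  let +nondep : NormedAlgebra ℚ (E →L[ℂ] E) := .restrictScalars ℚ ℂ (E →L[ℂ] E)
  unfold eA
  rw [smul_add]
  exact NormedSpace.exp_add_of_commute (Commute.smul_left (Commute.smul_right h _) _)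

/-- if `A L = A` (`A` vanishes on the range of `1 - L`) then `eA A (1 - L) = 1 - L` -/
theorem eA_mul_of_mul {A L : E →L[ℂ] E} (h : A * L = 0) : eA A * L = L := by
  have h1 := (eA_hasSum A).mul_right L
  have h2 : HasSum (fun n : ℕ =>
      (((Nat.factorial n : ℂ)⁻¹ * (2 * (Real.pi : ℂ) * I) ^ n) • A ^ n) * L) L := by
    have h3 := hasSum_single (f := fun n : ℕ =>
      (((Nat.factorial n : ℂ)⁻¹ * (2 * (Real.pi : ℂ) * I) ^ n) • A ^ n) * L) 0 (fun n hn => by
        obtain ⟨k, rfl⟩ := Nat.exists_eq_succ_of_ne_zero hn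
        have e1 : A ^ (k + 1) * L = 0 := by rw [pow_succ, mul_assoc, h, mul_zero]
        change (_ • A ^ (k + 1)) * L = 0
        rw [smul_mul_assoc, e1, smul_zero])
    simpa using h3
  exact h1.unique h2

theorem mul_eA_of_mul {A L : E →L[ℂ] E} (h : L * A = 0) : L * eA A = L := by
  have h1 := (eA_hasSum A).mul_left L
  have h2 : HasSum (fun n : ℕ =>
      L * (((Nat.factorial n : ℂ)⁻¹ * (2 * (Real.pi : ℂ) * I) ^ n) • A ^ n)) L := by
    have h3 := hasSum_single (f := fun n : ℕ =>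
      L * (((Nat.factorial n : ℂ)⁻¹ * (2 * (Real.pi : ℂ) * I) ^ n) • A ^ n)) 0 (fun n hn => by
        obtain ⟨k, rfl⟩ := Nat.exists_eq_succ_of_ne_zero hn
        have e1 : L * A ^ (k + 1) = 0 := by rw [pow_succ', ← mul_assoc, h, zero_mul]
        change L * (_ • A ^ (k + 1)) = 0
        rw [mul_smul_comm, e1, smul_zero])
    simpa using h3
  exact h1.unique h2

/-- compact operators: algebra -/
theorem cpt_add {A B : E →L[ℂ] E} (hA : IsCompactOperator A) (hB : IsCompactOperator B) :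
    IsCompactOperator (A + B : E →L[ℂ] E) := hA.add hB

theorem cpt_neg {A : E →L[ℂ] E} (hA : IsCompactOperator A) :
    IsCompactOperator (-A : E →L[ℂ] E) := hA.neg

theorem cpt_sub {A B : E →L[ℂ] E} (hA : IsCompactOperator A) (hB : IsCompactOperator B) :
    IsCompactOperator (A - B : E →L[ℂ] E) := hA.sub hB

theorem cpt_smul {A : E →L[ℂ] E} (c : ℂ) (hA : IsCompactOperator A) :
    IsCompactOperator (c • A : E →L[ℂ] E) := hA.smul c

theorem cpt_mul_left {A : E →L[ℂ] E} (B : E →L[ℂ] E) (hA : IsCompactOperator A) :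
    IsCompactOperator (B * A : E →L[ℂ] E) := hA.clm_comp B

theorem cpt_mul_right {A : E →L[ℂ] E} (B : E →L[ℂ] E) (hA : IsCompactOperator A) :
    IsCompactOperator (A * B : E →L[ℂ] E) := hA.comp_clm B

theorem cpt_zero : IsCompactOperator (0 : E →L[ℂ] E) := isCompactOperator_zero

/-- norm limits -/
theorem isClosed_cpt : IsClosed {A : E →L[ℂ] E | IsCompactOperator A} :=
  isClosed_setOfPred_isCompactOperator

/-- `F = L V L + (1 - L)` is essentially unitary if `V` is unitary and `[V, L]` is compact -/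
theorem ess_of_comm {V L : E →L[ℂ] E} (hV : star V * V = 1) (hL : L * L = L) (hs : star L = L)
    (hc : IsCompactOperator (V * L - L * V : E →L[ℂ] E)) :
    IsCompactOperator (star (L * V * L + (1 - L)) * (L * V * L + (1 - L)) - 1 : E →L[ℂ] E) := by
  have e : star (L * V * L + (1 - L)) * (L * V * L + (1 - L)) - 1 =
      -(L * star V * (V * L - L * V) * L) := by
    have e1 : star (L * V * L + (1 - L)) = L * star V * L + (1 - L) := by
      rw [star_add, star_mul, star_mul, star_sub, hs, star_one, mul_assoc]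
    rw [e1]
    have a1 : L * star V * (V * L - L * V) * L = L - L * star V * L * V * L := by
      rw [mul_sub, sub_mul]
      have : L * star V * (V * L) * L = L := by
        rw [← mul_assoc, mul_assoc L (star V) V, hV, mul_one, hL, hL]
      rw [this]
      simp only [mul_assoc]
    have a2 : (L * star V * L + (1 - L)) * (L * V * L + (1 - L)) =
        L * star V * L * V * L + (1 - L) := by
      have b1 : (1 - L) * L = 0 := by rw [sub_mul, one_mul, hL, sub_self]
      have b2 : L * (1 - L) = 0 := by rw [mul_sub, mul_one, hL, sub_self]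
      have b3 : (1 - L) * (1 - L) = 1 - L := by rw [mul_sub, mul_one, b1, sub_zero]
      rw [add_mul, mul_add, mul_add, b3]
      have c1 : L * star V * L * (1 - L) = 0 := by rw [mul_assoc, b2, mul_zero]
      have c2 : (1 - L) * (L * V * L) = 0 := by rw [← mul_assoc, ← mul_assoc, b1, zero_mul, zero_mul]
      have c3 : L * star V * L * (L * V * L) = L * star V * L * V * L := by
        rw [← mul_assoc, ← mul_assoc, mul_assoc (L * star V) L L, hL]
      rw [c1, c2, c3]; simp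
    rw [a1, a2]
    abel
  rw [e]
  exact cpt_neg (cpt_mul_right _ (cpt_mul_left _ hc))

/-- the adjoint of a compact `Θ`-odd operator is compact -/
theorem cpt_star_odd {K : E →L[ℂ] E} (hK : OddT Θ K) (hc : IsCompactOperator K) :
    IsCompactOperator (star K : E →L[ℂ] E) := by
  have e : ((star K : E →L[ℂ] E) : E → E) = fun ψ => Θ.symm (K (Θ ψ)) := by
    funext ψ
    rw [hK ψ, LinearIsometryEquiv.symm_apply_apply]
  rw [e]
  have h1 : IsCompactOperator (fun ψ => K (Θ ψ)) :=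
    hc.comp_clm ((Θ : E ≃SL[starRingEnd ℂ] E) : E →SL[starRingEnd ℂ] E)
  exact h1.clm_comp ((Θ.symm : E ≃SL[starRingEnd ℂ] E) : E →SL[starRingEnd ℂ] E)

theorem ess_of_sub {F G : E →L[ℂ] E} (hFo : OddT Θ F) (hGo : OddT Θ G)
    (hF : IsCompactOperator (star F * F - 1 : E →L[ℂ] E))
    (hc : IsCompactOperator (G - F : E →L[ℂ] E)) :
    IsCompactOperator (star G * G - 1 : E →L[ℂ] E) := by
  have hc' : IsCompactOperator (star (G - F) : E →L[ℂ] E) := cpt_star_odd (hGo.sub hFo) hc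
  have e : star G * G - 1 = (star F * F - 1) + star (G - F) * G + star F * (G - F) := by
    rw [star_sub]; noncomm_ring
  rw [e]
  exact cpt_add (cpt_add hF (cpt_mul_right _ hc')) (cpt_mul_left _ hc)

end abs

end Pool.Agent.W809.FKM
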