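import Pool.Agent.W809.FKM.Stms

set_option autoImplicit false

open scoped ComplexConjugate Topology
open Complex

namespace Pool.Agent.W809.FKM

theorem ang_nonneg (w z : ℂ) : 0 ≤ ang w z := by
  unfold ang
  split_ifs with h
  · exact h
  · have := Complex.neg_pi_lt_arg (z / w)
    linarith [Real.pi_pos]

theorem ang_lt (w z : ℂ) : ang w z < 2 * Real.pi := by
  unfold ang
  split_ifs with h
  · have := Complex.arg_le_pi (z / w)
    linarith [Real.pi_pos]
  · push Not at h
    linarith

theorem exp_ang (w z : ℂ) : exp (ang w z * I) = exp (arg (z / w) * I) := by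
  unfold ang
  split_ifs with h
  · rfl
  · push_cast
    rw [add_mul, Complex.exp_add]
    have : exp (2 * (Real.pi : ℂ) * I) = 1 := Complex.exp_two_pi_mul_I
    rw [this, mul_one]

/-- polar form -/
theorem polar {w : ℂ} (hw : ‖w‖ = 1) (z : ℂ) : z = ‖z‖ * exp (ang w z * I) * w := by
  have hw0 : w ≠ 0 := by intro h; rw [h] at hw; simp at hw
  rw [exp_ang]
  have h := Complex.norm_mul_exp_arg_mul_I (z / w)
  rw [norm_div, hw, div_one] at h
  rw [h]
  field_simp

/-- uniqueness of the angle -/
theorem ang_unique {w : ℂ} (hw : ‖w‖ = 1) {r φ : ℝ} (hr : 0 < r) (h0 : 0 ≤ φ)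
    (h1 : φ < 2 * Real.pi) : ang w (r * exp (φ * I) * w) = φ := by
  have hw0 : w ≠ 0 := by intro h; rw [h] at hw; simp at hw
  have hz := polar hw (r * exp (φ * I) * w)
  have hn : ‖(r * exp (φ * I) * w : ℂ)‖ = r := by
    rw [norm_mul, norm_mul, hw, Complex.norm_exp_ofReal_mul_I, Complex.norm_real,
      Real.norm_of_nonneg hr.le]; simp
  rw [hn] at hz
  have h2 : exp (φ * I) = exp (ang w (r * exp (φ * I) * w) * I) := by
    have hrc : (r : ℂ) ≠ 0 := by exact_mod_cast hr.ne'
    have := mul_right_cancel₀ hw0 hz
    exact mul_left_cancel₀ hrc this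
  rw [Complex.exp_eq_exp_iff_exists_int] at h2
  obtain ⟨n, hn⟩ := h2
  have a1 := ang_nonneg w (r * exp (φ * I) * w)
  have a2 := ang_lt w (r * exp (φ * I) * w)
  clear hz
  generalize ang w (r * exp (φ * I) * w) = ψ at *
  have h3 : φ = ψ + n * (2 * Real.pi) := by
    have hI := Complex.I_ne_zero
    have : (φ : ℂ) = (ψ : ℂ) + n * (2 * Real.pi) := by
      have : (φ : ℂ) * I = ((ψ : ℂ) + n * (2 * Real.pi)) * I := by
        rw [hn]; ring
      exact mul_right_cancel₀ hI this
    exact_mod_cast this
  have hp := Real.pi_pos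
  have hn0 : n = 0 := by
    have b1 : (n : ℝ) < 1 := by
      by_contra hc
      push Not at hc
      nlinarith
    have b2 : (-1 : ℝ) < n := by
      by_contra hc
      push Not at hc
      nlinarith
    have c1 : n < 1 := by exact_mod_cast b1
    have c2 : -1 < n := by exact_mod_cast b2
    omega
  rw [hn0] at h3
  push_cast at h3
  linarith

theorem angc : S_ANGC := by
  intro w w' z hw hw' hne hz
  have hp := Real.pi_pos
  have hz0 : 0 < ‖z‖ := norm_pos_iff.2 hz
  set θ := ang w w' with hθ
  set φ := ang w z with hφ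
  have hw'p := polar hw w'
  rw [hw', ← hθ] at hw'p
  have hzp := polar hw z
  rw [← hφ] at hzp
  have θ0 : 0 ≤ θ := ang_nonneg _ _
  have θ2 : θ < 2 * Real.pi := ang_lt _ _
  have φ0 : 0 ≤ φ := ang_nonneg _ _
  have φ2 : φ < 2 * Real.pi := ang_lt _ _
  have θ1 : 0 < θ := by
    rcases θ0.lt_or_eq with h | h
    · exact h
    · exfalso
      apply hne
      rw [hw'p, ← h]; simp
  -- w in terms of w'
  have e1 : w = 1 * exp (((2 * Real.pi - θ : ℝ) : ℂ) * I) * w' := by
    rw [hw'p]
    push_cast
    have : exp ((2 * Real.pi - θ : ℂ) * I) * exp (θ * I) = 1 := by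
      rw [← Complex.exp_add, ← Complex.exp_two_pi_mul_I]; congr 1; ring
    linear_combination (-w) * this
  have a1 : ang w' w = 2 * Real.pi - θ := by
    have := ang_unique hw' (r := 1) (φ := 2 * Real.pi - θ) one_pos (by linarith) (by linarith)
    rw [Complex.ofReal_one, ← e1] at this
    exact this
  rw [a1]
  by_cases h : φ < θ
  · have e2 : z = ‖z‖ * exp (((φ - θ + 2 * Real.pi : ℝ) : ℂ) * I) * w' := by
      rw [hw'p]
      nth_rewrite 1 [hzp]
      push_cast
      have : exp ((φ - θ + 2 * Real.pi : ℂ) * I) * exp (θ * I) = exp (φ * I) := by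
        rw [← Complex.exp_add]
        have : (φ - θ + 2 * Real.pi : ℂ) * I + θ * I = φ * I + 2 * Real.pi * I := by ring
        rw [this, Complex.exp_add, Complex.exp_two_pi_mul_I, mul_one]
      linear_combination (-(‖z‖ : ℂ) * w) * this
    have a2 : ang w' z = φ - θ + 2 * Real.pi := by
      have := ang_unique hw' (r := ‖z‖) (φ := φ - θ + 2 * Real.pi) hz0 (by linarith) (by linarith)
      rw [← e2] at this
      exact this
    rw [a2]
    constructor
    · intro h'; exact absurd h h'
    · intro h'; linarith
  · push Not at h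
    have e2 : z = ‖z‖ * exp (((φ - θ : ℝ) : ℂ) * I) * w' := by
      rw [hw'p]
      nth_rewrite 1 [hzp]
      push_cast
      have : exp ((φ - θ : ℂ) * I) * exp (θ * I) = exp (φ * I) := by
        rw [← Complex.exp_add]; congr 1; ring
      linear_combination (-(‖z‖ : ℂ) * w) * this
    have a2 : ang w' z = φ - θ := by
      have := ang_unique hw' (r := ‖z‖) (φ := φ - θ) hz0 (by linarith) (by linarith)
      rw [← e2] at this
      exact this
    rw [a2]
    constructor
    · intro _; linarith
    · intro _; exact not_lt.2 h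

/-- off the ray `w` the angle is continuous -/
theorem ang_eq_off {w : ℂ} (hw : ‖w‖ = 1) {z : ℂ} (hz : z ≠ 0) (h : 0 < ang w z) :
    ang w z = arg (-z / w) + Real.pi ∧ (-z / w) ∈ slitPlane := by
  have hw0 : w ≠ 0 := by intro h; rw [h] at hw; simp at hw
  have hp := Real.pi_pos
  have hzw : z / w ≠ 0 := div_ne_zero hz hw0
  have harg : arg (-(z / w)) + Real.pi = ang w z := by
    unfold ang at h ⊢
    split_ifs at h ⊢ with hs
    · have := Complex.arg_neg_eq_arg_sub_pi_of_im_pos (x := z / w)
      by_cases hpi : arg (z / w) = Real.pi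
      · -- negative real
        have h1 : arg (-(z / w)) = 0 := by
          rw [Complex.arg_eq_pi_iff] at hpi
          rw [Complex.arg_eq_zero_iff]
          exact ⟨by rw [Complex.neg_re]; linarith [hpi.1], by rw [Complex.neg_im, hpi.2, neg_zero]⟩
        rw [h1, hpi, zero_add]
      · have him : 0 < (z / w).im := by
          have h1 : 0 < arg (z / w) := h
          have h2 : arg (z / w) < Real.pi := lt_of_le_of_ne (Complex.arg_le_pi _) hpi
          have h3 := Real.sin_pos_of_pos_of_lt_pi h1 h2
          rw [Complex.sin_arg] at h3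
          have h4 : 0 < ‖z / w‖ := norm_pos_iff.2 hzw
          by_contra hc
          push Not at hc
          have : (z / w).im / ‖z / w‖ ≤ 0 := div_nonpos_of_nonpos_of_nonneg hc h4.le
          linarith
        rw [this him]; ring
    · push Not at hs
      have him : (z / w).im < 0 := Complex.arg_neg_iff.1 hs
      rw [Complex.arg_neg_eq_arg_add_pi_of_im_neg him]; ring
  rw [neg_div]
  refine ⟨harg.symm, ?_⟩
  rw [Complex.mem_slitPlane_iff_arg]
  refine ⟨?_, neg_ne_zero.2 hzw⟩
  intro h1
  have h2 := ang_lt w z
  rw [← harg, h1] at h2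
  linarith

theorem cross : S_CROSS := by
  intro w w' x y hw hw' hne hx hy
  have hw0 : w ≠ 0 := by intro h; rw [h] at hw; simp at hw
  set A : Set ℂ := {z | ang w z < ang w w'} with hA
  -- frontier of A
  have hfr : ∀ z ∈ frontier A, ∃ t : ℝ, 0 ≤ t ∧ (z = t * w ∨ z = t * w') := by
    intro z hz
    by_contra hcon
    push Not at hcon
    have hz0 : z ≠ 0 := by
      intro h
      exact (hcon 0 le_rfl).1 (by rw [h]; simp)
    have hang : 0 < ang w z := by
      rcases (ang_nonneg w z).lt_or_eq with h | h
      · exact h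
      · exfalso
        refine (hcon ‖z‖ (norm_nonneg _)).1 ?_
        have := polar hw z
        rw [← h] at this
        simpa using this
    obtain ⟨e1, e2⟩ := ang_eq_off hw hz0 hang
    have hcont : ContinuousAt (fun z => arg (-z / w) + Real.pi) z := by
      have h1 : ContinuousAt (fun z : ℂ => -z / w) z := by fun_prop
      exact (ContinuousAt.comp (f := fun z : ℂ => -z / w) (g := arg)
        (Complex.continuousAt_arg e2) h1).add continuousAt_const
    have hev : ∀ᶠ u in 𝓝 z, ang w u = arg (-u / w) + Real.pi := by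
      have h1 : ContinuousAt (fun z : ℂ => -z / w) z := by fun_prop
      have h2 : ∀ᶠ u in 𝓝 z, (-u / w) ∈ slitPlane :=
        h1 (Complex.isOpen_slitPlane.mem_nhds e2)
      have h3 : ∀ᶠ u in 𝓝 z, u ≠ 0 := eventually_ne_nhds hz0
      filter_upwards [h2, h3] with u hu hu0
      refine (ang_eq_off hw hu0 ?_).1
      rcases (ang_nonneg w u).lt_or_eq with h | h
      · exact h
      · exfalso
        have hp := polar hw u
        rw [← h] at hp
        simp only [Complex.ofReal_zero, zero_mul, Complex.exp_zero, mul_one] at hp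
        have hu' : -u / w = ((-‖u‖ : ℝ) : ℂ) := by
          rw [hp]
          field_simp
          simp [hw]
        rw [hu'] at hu
        rw [Complex.mem_slitPlane_iff] at hu
        have hn : 0 < ‖u‖ := norm_pos_iff.2 hu0
        rcases hu with hu | hu
        · rw [Complex.ofReal_re] at hu; linarith
        · rw [Complex.ofReal_im] at hu; exact hu rfl
    have hca : ContinuousAt (ang w) z := hcont.congr (hev.mono fun u hu => hu.symm)
    have hne' : ang w z ≠ ang w w' := by
      intro h
      refine (hcon ‖z‖ (norm_nonneg _)).2 ?_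
      have h1 := polar hw z
      have h2 := polar hw w'
      rw [hw', ← h] at h2
      rw [h2]
      nth_rewrite 1 [h1]
      push_cast
      ring
    rcases lt_or_gt_of_ne hne' with h | h
    · have : A ∈ 𝓝 z := hca (Iio_mem_nhds h)
      rw [frontier, Set.mem_sdiff] at hz
      exact hz.2 (mem_interior_iff_mem_nhds.2 this)
    · have : Aᶜ ∈ 𝓝 z := by
        have h1 : ∀ᶠ u in 𝓝 z, ang w w' < ang w u := hca (Ioi_mem_nhds h)
        filter_upwards [h1] with u hu
        simp only [hA, Set.mem_compl_iff, Set.mem_ofPred_eq]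
        exact not_lt.2 hu.le
      rw [← frontier_compl, frontier, Set.mem_sdiff] at hz
      exact hz.2 (mem_interior_iff_mem_nhds.2 this)
  have hpre : IsPreconnected (segment ℝ x y) := (convex_segment x y).isPreconnected
  have hex : ∃ p ∈ segment ℝ x y, p ∈ frontier A := by
    by_contra hcon
    push Not at hcon
    have hint : ∀ p, p ∉ frontier A → p ∈ interior A ∨ p ∈ interior Aᶜ := by
      intro p hp
      rw [frontier, Set.mem_sdiff, not_and_or, not_not] at hp
      rcases hp with h | h
      · right; rw [interior_compl]; exact h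
      · left; exact h
    obtain ⟨p, -, h1, h2⟩ := hpre (interior A) (interior Aᶜ) isOpen_interior isOpen_interior
      (fun p hp => hint p (hcon p hp))
      ⟨x, left_mem_segment ℝ x y, (hint x (hcon x (left_mem_segment ℝ x y))).resolve_right
        (fun h => (interior_subset h) hx)⟩
      ⟨y, right_mem_segment ℝ x y, (hint y (hcon y (right_mem_segment ℝ x y))).resolve_left
        (fun h => hy (show y ∈ A from interior_subset h))⟩
    exact (interior_subset h2) (interior_subset h1)
  obtain ⟨p, hp1, hp2⟩ := hex
  have hd : ‖x - p‖ ≤ ‖x - y‖ := by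
    obtain ⟨a, b, ha, hb, hab, rfl⟩ := hp1
    have : x - (a • x + b • y) = b • (x - y) := by
      have ha' : a = 1 - b := by linarith
      rw [ha', sub_smul, one_smul, smul_sub]; abel
    rw [this, norm_smul, Real.norm_of_nonneg hb]
    exact mul_le_of_le_one_left (norm_nonneg _) (by linarith)
  obtain ⟨t, ht, h | h⟩ := hfr p hp2
  · exact ⟨t, ht, Or.inl (by rw [← h]; exact hd)⟩
  · exact ⟨t, ht, Or.inr (by rw [← h]; exact hd)⟩

end Pool.Agent.W809.FKM
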