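import Pool.Agent.W809.FKM.Top

set_option autoImplicit false

open scoped ComplexConjugate Topology
open Complex

namespace Pool.Agent.W809.FKM

variable {m : ℕ}

/-- `eA` of a multiplication operator -/
theorem eA_M {f : Lat → ℂ} {C : ℝ} (hf : ∀ x, ‖f x‖ ≤ C) (y : Lat) (v : Vm m) :
    eA (M f) (sg y v) = exp (2 * (Real.pi : ℂ) * I * f y) • sg y v := by
  have h := eA_hasSum (M f : Op m)
  have h1 : HasSum (fun n : ℕ => (((Nat.factorial n : ℂ)⁻¹ * (2 * (Real.pi : ℂ) * I) ^ n) •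
      (M f : Op m) ^ n) (sg y v)) (eA (M f) (sg y v)) :=
    h.mapL (ContinuousLinearMap.apply ℂ (HS m) (sg y v))
  have hp : ∀ n : ℕ, ((M f : Op m) ^ n) (sg y v) = (f y) ^ n • sg y v := by
    intro n
    induction n with
    | zero => simp
    | succ n ih =>
      rw [pow_succ']
      change M f (((M f : Op m) ^ n) (sg y v)) = _
      rw [ih, map_smul, M_sg hf, smul_smul, pow_succ]
  have h2 : HasSum (fun n : ℕ => ((Nat.factorial n : ℂ)⁻¹ * (2 * (Real.pi : ℂ) * I * f y) ^ n))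
      (exp (2 * (Real.pi : ℂ) * I * f y)) := by
    have := NormedSpace.exp_series_hasSum_exp' (𝕂 := ℂ) (2 * (Real.pi : ℂ) * I * f y)
    rw [← Complex.exp_eq_exp_ℂ] at this
    simpa [smul_eq_mul] using this
  have h3 := h2.smul_const (sg y v)
  refine h1.unique (h3.congr_fun ?_)
  intro n
  change ((Nat.factorial n : ℂ)⁻¹ * (2 * (Real.pi : ℂ) * I) ^ n) • (((M f : Op m) ^ n) (sg y v)) = _
  rw [hp, smul_smul, mul_pow (2 * (Real.pi : ℂ) * I) (f y) n, mul_assoc]

section

variable {E : Type} [NormedAddCommGroup E] [InnerProductSpace ℂ E] [CompleteSpace E]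

theorem pow_cpt {H P : E →L[ℂ] E} (hP : P * P = P)
    (hc : IsCompactOperator (P * H - H * P : E →L[ℂ] E)) (k : ℕ) :
    IsCompactOperator ((H * P * H) ^ (k + 1) - (H * H) ^ (k + 1) * P : E →L[ℂ] E) := by
  induction k with
  | zero =>
    have e : (H * P * H) ^ (0 + 1) - (H * H) ^ (0 + 1) * P = H * (P * H - H * P) := by
      rw [zero_add, pow_one, pow_one, mul_sub, mul_assoc, mul_assoc]
    rw [e]
    exact cpt_mul_left _ hc
  | succ k ih =>
    have e1 : P * (H * P * H) - H * H * P =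
        (P * H - H * P) * (P * H) + H * (P * H - H * P) := by
      have : H * P * (P * H) = H * (P * H) := by
        rw [mul_assoc, ← mul_assoc P P H, hP]
      rw [sub_mul, mul_sub, this]; noncomm_ring
    have e : (H * P * H) ^ (k + 1 + 1) - (H * H) ^ (k + 1 + 1) * P =
        ((H * P * H) ^ (k + 1) - (H * H) ^ (k + 1) * P) * (H * P * H) +
        (H * H) ^ (k + 1) * (P * (H * P * H) - H * H * P) := by
      rw [pow_succ (H * P * H) (k + 1), pow_succ (H * H) (k + 1)]; noncomm_ring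
    rw [e, e1]
    exact cpt_add (cpt_mul_right _ ih)
      (cpt_mul_left _ (cpt_add (cpt_mul_right _ hc) (cpt_mul_left _ hc)))

theorem exp_cpt {H P : E →L[ℂ] E} (hP : P * P = P)
    (hc : IsCompactOperator (P * H - H * P : E →L[ℂ] E)) :
    IsCompactOperator ((eA (H * P * H) - 1) - (eA (H * H) - 1) * P : E →L[ℂ] E) := by
  set c : ℕ → ℂ := fun n => ((Nat.factorial n : ℂ)⁻¹ * (2 * (Real.pi : ℂ) * I) ^ n) with hcd
  have h1 : ∀ A : E →L[ℂ] E, HasSum (fun n : ℕ => c (n + 1) • A ^ (n + 1)) (eA A - 1) := by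
    intro A
    have h := eA_hasSum A
    have h2 := (hasSum_nat_add_iff' (f := fun n : ℕ => c n • A ^ n) (g := eA A) 1).2 h
    simpa [hcd] using h2
  have h2 := h1 (H * P * H)
  have h3 := (h1 (H * H)).mul_right P
  have h4 := h2.sub h3
  refine isClosed_cpt.mem_of_tendsto h4 (Filter.Eventually.of_forall fun s => ?_)
  change IsCompactOperator ((∑ n ∈ s, (c (n + 1) • (H * P * H) ^ (n + 1) -
    c (n + 1) • (H * H) ^ (n + 1) * P) : E →L[ℂ] E))
  induction s using Finset.cons_induction with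
  | empty =>
    rw [Finset.sum_empty]; exact cpt_zero
  | cons a s ha ih =>
    rw [Finset.sum_cons]
    refine cpt_add ?_ ih
    rw [smul_mul_assoc, ← smul_sub]
    exact cpt_smul _ (pow_cpt hP hc a)

end

/-- the square root of `e^{2πi t²} - 1` -/
noncomputable def dl (t : ℝ) : ℂ :=
  (Real.sqrt 2 : ℂ) * exp (I * (Real.pi / 4)) * (Real.sqrt (Real.sin (Real.pi * t ^ 2)) : ℂ) *
    exp (I * (Real.pi * t ^ 2 / 2))

theorem dl_cont : Continuous dl := by
  unfold dl
  fun_prop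

theorem dl_sq {t : ℝ} (h0 : 0 ≤ t) (h1 : t ≤ 1) :
    dl t * dl t = exp (2 * Real.pi * I * (t : ℂ) ^ 2) - 1 := by
  have hs : 0 ≤ Real.sin (Real.pi * t ^ 2) := by
    apply Real.sin_nonneg_of_nonneg_of_le_pi
    · positivity
    · nlinarith [Real.pi_pos, pow_le_one₀ h0 h1 (n := 2)]
  have e1 : (Real.sqrt 2 : ℂ) * (Real.sqrt 2 : ℂ) = 2 := by
    rw [← Complex.ofReal_mul, Real.mul_self_sqrt (by norm_num)]; norm_num
  have e2 : (Real.sqrt (Real.sin (Real.pi * t ^ 2)) : ℂ) * (Real.sqrt (Real.sin (Real.pi * t ^ 2)) : ℂ) =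
      Complex.sin (Real.pi * t ^ 2) := by
    rw [← Complex.ofReal_mul, Real.mul_self_sqrt hs]; push_cast; rfl
  have e3 : exp (I * (Real.pi / 4)) * exp (I * (Real.pi / 4)) = I := by
    rw [← Complex.exp_add]
    have : I * ((Real.pi : ℂ) / 4) + I * (Real.pi / 4) = (Real.pi / 2 : ℂ) * I := by ring
    rw [this, Complex.exp_pi_div_two_mul_I]
  have e4 : exp (I * (Real.pi * t ^ 2 / 2)) * exp (I * (Real.pi * t ^ 2 / 2)) =
      exp (I * (Real.pi * t ^ 2)) := by
    rw [← Complex.exp_add]; congr 1; ring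
  have e5 : dl t * dl t = ((Real.sqrt 2 : ℂ) * (Real.sqrt 2 : ℂ)) *
      (exp (I * (Real.pi / 4)) * exp (I * (Real.pi / 4))) *
      ((Real.sqrt (Real.sin (Real.pi * t ^ 2)) : ℂ) * (Real.sqrt (Real.sin (Real.pi * t ^ 2)) : ℂ)) *
      (exp (I * (Real.pi * t ^ 2 / 2)) * exp (I * (Real.pi * t ^ 2 / 2))) := by
    unfold dl; ring
  rw [e5, e1, e2, e3, e4, Complex.sin]
  have e6 : exp (2 * Real.pi * I * (t : ℂ) ^ 2) =
      exp (I * (Real.pi * t ^ 2)) * exp (I * (Real.pi * t ^ 2)) := by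
    rw [← Complex.exp_add]; congr 1; ring
  have e7 : exp (-((Real.pi : ℂ) * t ^ 2) * I) * exp (I * (Real.pi * t ^ 2)) = 1 := by
    rw [← Complex.exp_add]
    have : -((Real.pi : ℂ) * t ^ 2) * I + I * (Real.pi * t ^ 2) = 0 := by ring
    rw [this, Complex.exp_zero]
  have e8 : exp ((Real.pi : ℂ) * t ^ 2 * I) = exp (I * (Real.pi * t ^ 2)) := by
    congr 1; ring
  rw [e6, e8]
  have hI : I * I = -1 := Complex.I_mul_I
  linear_combination (-e7) + (exp (-((Real.pi : ℂ) * t ^ 2) * I) * exp (I * (Real.pi * t ^ 2)) -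
    exp (I * (Real.pi * t ^ 2)) * exp (I * (Real.pi * t ^ 2))) * hI

theorem dl_bound {t : ℝ} (h0 : 0 ≤ t) (h1 : t ≤ 1) : ‖dl t‖ ≤ 2 := by
  have h2 : ‖dl t‖ * ‖dl t‖ ≤ 2 := by
    rw [← norm_mul, dl_sq h0 h1]
    refine (norm_sub_le _ _).trans ?_
    have : exp (2 * Real.pi * I * (t : ℂ) ^ 2) = exp (((2 * Real.pi * t ^ 2 : ℝ) : ℂ) * I) := by
      congr 1; push_cast; ring
    rw [this, Complex.norm_exp_ofReal_mul_I, norm_one]
    norm_num
  nlinarith [norm_nonneg (dl t)]

theorem topb (h1 : S_SVC) (h2 : S_PARC) (h3 : S_XY) : S_TOPB := by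
  intro m Θ P R h hΘ hX hPP hPs hPT hPW hh hsv hcV
  have nb : ∀ x, ‖((h x : ℝ) : ℂ)‖ ≤ 1 := fun x => by
    rw [Complex.norm_real]; exact abs_le_one_of hh x
  set H : Op m := M (fun x => (h x : ℂ)) with hH
  set Lr : Op m := Lam R with hLr
  set d : Lat → ℂ := fun x => dl (h x) with hd
  have nd : ∀ x, ‖d x‖ ≤ 2 := fun x => dl_bound (hh x).1 (hh x).2
  set Md : Op m := M d with hMd
  -- slowly varying
  have svd : SV d := by
    intro ρ ε hρ hε
    have hu : UniformContinuousOn dl (Set.Icc 0 1) :=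
      isCompact_Icc.uniformContinuousOn_of_continuous dl_cont.continuousOn
    rw [Metric.uniformContinuousOn_iff] at hu
    obtain ⟨η, hη, hu⟩ := hu ε hε
    obtain ⟨n, hn⟩ := hsv ρ (η / 2) hρ (by linarith)
    refine ⟨n, fun x y hx hxy => ?_⟩
    have a1 := hn x y hx hxy
    have a2 := hu (h x) (hh x) (h y) (hh y) (by
      rw [Real.dist_eq]
      rw [← Complex.ofReal_sub, Complex.norm_real, Real.norm_eq_abs] at a1
      linarith)
    rw [dist_eq_norm] at a2
    exact a2.le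
  have cH : IsCompactOperator (P * H - H * P : Op m) := h1 m P _ 1 hPW hsv nb
  have cD : IsCompactOperator (P * Md - Md * P : Op m) := h1 m P d 2 hPW svd nd
  have hrr : Lr * Lr = Lr := Lam_sq _
  have sH : star H = H := by
    rw [hH, star_M nb]
    simp only [Complex.conj_ofReal]
  have tH : TRS Θ H := trs_M hX nb fun x => Complex.conj_ofReal _
  have sLr : star Lr = Lr := star_Lam _
  have tLr : TRS Θ Lr := trs_Lam hX _
  have hDL : Md * Lr = Lr * Md := by
    rw [hMd, hLr, Lam, M_mul nd (ind_le R), M_mul (ind_le R) nd]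
    congr 1; funext x; ring
  set V : Op m := eA (H * P * H) with hV
  have sA : star (H * P * H) = H * P * H := star_conj hPs sH
  have tA : TRS Θ (H * P * H) := (tH.mul hPT).mul tH
  obtain ⟨u1, -⟩ := eA_unitary sA
  have oV : OddT Θ V := eA_odd sA tA
  have hDD : Md * Md = eA (H * H) - 1 := by
    have nhh : ∀ x, ‖((h x : ℂ)) * (h x : ℂ)‖ ≤ 1 := fun x => by
      rw [norm_mul]
      have := mul_le_mul (nb x) (nb x) (norm_nonneg _) (by norm_num)
      linarith
    refine op_ext fun y v => ?_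
    change Md (Md (sg y v)) = eA (H * H) (sg y v) - sg y v
    rw [hH, M_mul nb nb, eA_M nhh, hMd, M_sg nd, map_smul, M_sg nd, smul_smul]
    have e := dl_sq (hh y).1 (hh y).2
    have e2 : d y * d y = exp (2 * Real.pi * I * ((h y : ℂ) * (h y : ℂ))) - 1 := by
      have e' : ((h y : ℂ) * (h y : ℂ)) = (h y : ℂ) ^ 2 := (sq _).symm
      rw [e']; exact e
    rw [e2, sub_smul, one_smul]
  -- the operator G
  have hXY : (1 + (Md * Lr * P) * (P * Lr * Md) : Op m) = 1 + Md * (Lr * P * Lr) * Md := by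
    have : (Md * Lr * P) * (P * Lr * Md) = Md * Lr * (P * P) * Lr * Md := by noncomm_ring
    rw [this, hPP]; noncomm_ring
  have oG : OddT Θ (1 + (Md * Lr * P) * (P * Lr * Md) : Op m) := by
    rw [hXY]
    refine OddT.one.add ?_
    intro ψ
    have e1 : star (Md * (Lr * P * Lr) * Md) = M (fun x => conj (d x)) * (Lr * P * Lr) *
        M (fun x => conj (d x)) := by
      rw [star_mul, star_mul, star_conj hPs sLr, hMd, star_M nd]
      simp only [mul_assoc]
    rw [e1]
    change Md ((Lr * P * Lr) (Md (Θ ψ))) = Θ (M (fun x => conj (d x)) ((Lr * P * Lr)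
      (M (fun x => conj (d x)) ψ)))
    have tL : TRS Θ (Lr * P * Lr) := (tLr.mul hPT).mul tLr
    rw [hMd, T_M hX nd, tL, T_M hX nd]
  have cG : IsCompactOperator ((1 + (Md * Lr * P) * (P * Lr * Md)) - TR R V : Op m) := by
    have e : (1 + (Md * Lr * P) * (P * Lr * Md)) - TR R V =
        -(Lr * (((V - 1) - (eA (H * H) - 1) * P) + Md * (Md * P - P * Md)) * Lr) := by
      rw [hXY, ← hDD]
      have e1 : TR R V = Lr * V * Lr + (1 - Lr) := rfl
      have e2 : Md * (Lr * P * Lr) * Md = Lr * (Md * P * Md) * Lr := by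
        calc Md * (Lr * P * Lr) * Md = (Md * Lr) * P * (Lr * Md) := by noncomm_ring
          _ = (Lr * Md) * P * (Md * Lr) := by rw [hDL]
          _ = _ := by noncomm_ring
      have e3 : Lr * (((V - 1) - (Md * Md) * P) + Md * (Md * P - P * Md)) * Lr =
          Lr * V * Lr - Lr * Lr - Lr * (Md * P * Md) * Lr := by noncomm_ring
      rw [e3, hrr, e1, e2]
      abel
    rw [e]
    refine cpt_neg (cpt_mul_right _ (cpt_mul_left _ (cpt_add (exp_cpt hPP cH) (cpt_mul_left _ ?_))))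
    have : Md * P - P * Md = -(P * Md - Md * P) := by abel
    rw [this]
    exact cpt_neg cD
  have r1 := h2 (HS m) Θ (TR R V) (1 + (Md * Lr * P) * (P * Lr * Md)) hΘ (TR_odd hX R oV) oG
    (TR_ess R u1 hcV) cG
  rw [r1, h3 (HS m) (Md * Lr * P) (P * Lr * Md)]
  congr 1
  -- 1 + YX
  have hu : (M (fun x => exp (2 * Real.pi * I * (R.indicator (fun x => ((h x) ^ 2 : ℂ)) x))) : Op m) =
      1 + Lr * (Md * Md) * Lr := by
    have nu : ∀ x, ‖exp (2 * Real.pi * I * (R.indicator (fun x => ((h x) ^ 2 : ℂ)) x))‖ ≤ 1 := by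
      intro x
      by_cases hx : x ∈ R
      · rw [Set.indicator_of_mem hx]
        have : exp (2 * Real.pi * I * ((h x : ℂ) ^ 2)) =
            exp (((2 * Real.pi * (h x) ^ 2 : ℝ) : ℂ) * I) := by
          congr 1; push_cast; ring
        rw [this, Complex.norm_exp_ofReal_mul_I]
      · rw [Set.indicator_of_notMem hx]; simp
    refine op_ext fun y v => ?_
    rw [M_sg nu]
    change _ = sg y v + Lr (Md (Md (Lr (sg y v))))
    by_cases hy : y ∈ R
    · rw [Set.indicator_of_mem hy, hLr, Lam_sg_mem hy, hMd, M_sg nd, map_smul, M_sg nd, map_smul,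
        map_smul, Lam_sg_mem hy, smul_smul]
      have e := dl_sq (hh y).1 (hh y).2
      have e2 : d y * d y = exp (2 * Real.pi * I * ((h y : ℂ) ^ 2)) - 1 := e
      rw [e2, sub_smul, one_smul]
      abel
    · rw [Set.indicator_of_notMem hy, hLr, Lam_sg_notMem hy]
      simp
  rw [hu]
  have : P * (1 + Lr * (Md * Md) * Lr) * P = P * P + P * Lr * Md * (Md * Lr * P) := by noncomm_ring
  rw [this, hPP]
  abel

end Pool.Agent.W809.FKM
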