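import Pool.Agent.W809.FKM.Top

set_option autoImplicit false

open scoped ComplexConjugate Topology
open Complex

namespace Pool.Agent.W809.FKM

theorem topk (h1 : S_WALG) (h2 : S_CPT) (h3 : S_TAIL) (h4 : S_COMM2) : S_TOPK := by
  intro m P R f C hPP hPW hf hc
  obtain ⟨wmul, wadd, wstar, wsmul, wM⟩ := h1 m
  have nb : ∀ x, ‖((f x : ℝ) : ℂ)‖ ≤ C := fun x => by rw [Complex.norm_real]; exact hf x
  set Mf : Op m := M (fun x => (f x : ℂ)) with hMf
  have wf : Wi Mf := wM _ C nb
  set A : Op m := Mf * P * Mf with hA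
  have wA : Wi A := wmul _ _ (wmul _ _ wf hPW) wf
  obtain ⟨C1, t, hC1, ht0, ht, hT⟩ := h3 m P hPW
  refine h4 m A R wA fun r hr => ?_
  have wX : Wi ((A * A - A) * Lam (Sr R r)) := by
    have e : A * A - A = A * A + (-1 : ℂ) • A := by rw [neg_one_smul]; abel
    rw [e]
    exact wmul _ _ (wadd _ _ (wmul _ _ wA wA) (wsmul _ _ wA)) (wM _ 1 (ind_le _))
  refine h2 m _ wX fun ε hε => ?_
  -- the operator D
  have nb2 : ∀ x, ‖((f x : ℂ)) * (f x : ℂ) - 1‖ ≤ C * C + 1 := by
    intro x
    refine (norm_sub_le _ _).trans ?_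
    rw [norm_mul, norm_one]
    have := mul_le_mul (nb x) (nb x) (norm_nonneg _) ((norm_nonneg _).trans (nb x))
    linarith
  set N2 : Op m := M (fun x => (f x : ℂ) * (f x : ℂ) - 1) with hN2
  set D : Op m := Mf * P * N2 with hD
  have e1 : ∃ ρ : ℝ, ‖D‖ * t ρ < ε := by
    have h : Filter.Tendsto (fun r => ‖D‖ * t r) Filter.atTop (𝓝 (‖D‖ * 0)) := ht.const_mul _
    rw [mul_zero] at h
    exact (h.eventually (gt_mem_nhds hε)).exists
  obtain ⟨ρ, hρ⟩ := e1
  obtain ⟨n, hn⟩ := hc (max r ρ) (lt_of_lt_of_le hr (le_max_left _ _))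
  refine ⟨n, fun y hy v => ?_⟩
  have e0 : ((A * A - A) * Lam (Sr R r) : Op m) (sg y v) =
      (A * A - A) (Lam (Sr R r) (sg y v)) := rfl
  rw [e0]
  by_cases hyS : y ∈ Sr R r
  · rw [Lam_sg_mem hyS]
    have hyS' : y ∈ Sr R (max r ρ) := by
      obtain ⟨z, hz1, hz2⟩ := hyS
      exact ⟨z, hz1.trans (le_max_left _ _), hz2⟩
    rcases hn y hyS' hy with a1 | a1
    · have hfy : f y = 1 := a1 y (by rw [dst_self]; exact (hr.le.trans (le_max_left _ _)))
      have hMy : Mf (sg y v) = sg y v := by
        rw [hMf, M_sg nb, hfy]; simp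
      have e2 : (A * A - A) (sg y v) = D (P (sg y v)) := by
        have hMM : Mf * Mf = N2 + 1 := by
          rw [hMf, M_mul nb nb, hN2]
          have : (N2 : Op m) = M (fun x => (f x : ℂ) * (f x : ℂ)) - 1 := by
            rw [hN2, ← M_one, M_sub (C := C * C) (D := 1)]
            · intro x
              rw [norm_mul]
              exact mul_le_mul (nb x) (nb x) (norm_nonneg _) ((norm_nonneg _).trans (nb x))
            · intro x; simp
          rw [← hN2, this]; abel
        have k1 : A (sg y v) = Mf (P (sg y v)) := by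
          change Mf (P (Mf (sg y v))) = _
          rw [hMy]
        have k2 : A (A (sg y v)) = Mf (P ((Mf * Mf) (P (sg y v)))) := by
          rw [k1]; rfl
        have k3 : P (P (sg y v)) = P (sg y v) := by
          change (P * P) (sg y v) = _
          rw [hPP]
        change A (A (sg y v)) - A (sg y v) = Mf (P (N2 (P (sg y v))))
        rw [k2, k1, hMM]
        change Mf (P (N2 (P (sg y v)) + P (sg y v))) - _ = _
        rw [map_add, map_add, k3]
        abel
      rw [e2]
      have h := hT D y ρ 0 le_rfl (fun z hz w => by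
        have : D (sg z w) = 0 := by
          change Mf (P (N2 (sg z w))) = 0
          rw [hN2, M_sg nb2, a1 z (hz.trans (le_max_right _ _))]
          simp
        rw [this]; simp) v
      refine h.trans (mul_le_mul_of_nonneg_right ?_ (norm_nonneg _))
      rw [mul_zero, zero_add]
      exact hρ.le
    · have hMy : Mf (sg y v) = 0 := by
        rw [hMf, M_sg nb, a1]; simp
      have k1 : A (sg y v) = 0 := by
        change Mf (P (Mf (sg y v))) = _
        rw [hMy, map_zero, map_zero]
      change ‖A (A (sg y v)) - A (sg y v)‖ ≤ _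
      rw [k1, map_zero, sub_zero, norm_zero]
      positivity
  · rw [Lam_sg_notMem hyS, map_zero, norm_zero]
    positivity

end Pool.Agent.W809.FKM
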