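import Pool.Agent.W809.FKM.Main
import Pool.Agent.W809.FKM.TopK
import Pool.Agent.W809.FKM.TopB
import Pool.Agent.W809.FKM.Cross
import Pool.Agent.W54.FKM.Kato
import Pool.Agent.W54.FKM.ShiftB
import Pool.Agent.W54.FKM.Spec
import Pool.Agent.W930.FKM.Wpol
import Pool.Agent.W134.FKM.Ploc
import Pool.Agent.W261.FKM.Schur
import Pool.Agent.W261.FKM.Uloc
import Pool.Agent.W261.FKM.Loc
import Pool.Agent.W809.FKM.Q.Walg
import Pool.Agent.W809.FKM.Q.Cpt
import Pool.Agent.W809.FKM.Q.Nuck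
import Pool.Agent.W809.FKM.Q.Nid
import Pool.Agent.W809.FKM.Q.Par
import Pool.Agent.W809.FKM.Q.Nucv
import Pool.Agent.W809.FKM.Q.Four
import Pool.Agent.W809.FKM.Q.Ari
import Pool.Agent.W809.FKM.Q.Cmp
import Pool.Agent.W583.FKM.Tail
import Pool.Agent.W583.FKM.Int
import Pool.Agent.W583.FKM.Deep
import Pool.Agent.W583.FKM.Geoh
import Pool.Agent.W583.FKM.Geo
import Pool.Agent.W583.FKM.TopC
import Pool.Agent.W214.FKM.Lin
import Pool.Agent.W214.FKM.Cfc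

/-!
# Assembly
-/

set_option autoImplicit false

namespace Pool.Agent.W809.FKM

open Pool.Agent

theorem pPLOC : S_PLOC := W134.FKM.ploc W214.FKM.alt
theorem pPAR : S_PAR := Q.par_path pPLOC
theorem pPARC : S_PARC := Q.par_cpt pPAR
theorem pCPT : S_CPT := Q.cpt W261.FKM.schur
theorem pCOMM1 : S_COMM1 := Q.comm1 W261.FKM.schur
theorem pCOMM2 : S_COMM2 := Q.comm2 pCOMM1 Q.walg
theorem pSVC : S_SVC := Q.svc Q.walg pCPT W583.FKM.tail
theorem pULOC : S_ULOC := W261.FKM.uloc W261.FKM.schur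
theorem pLOC : S_LOC := W261.FKM.loc pULOC Q.four Q.ari Q.fcfc
theorem pCMP : S_CMP :=
  Q.cmp W261.FKM.schur pULOC Q.four Q.ari Q.fcfc
theorem pNUCV : S_NUCV := Q.nucv Q.nuck Q.sum
theorem pWPOL : S_WPOL := W930.FKM.Wpol.main W214.FKM.intw Q.nid
theorem pSHIFT : S_SHIFTB := _root_.W54.FKM.shiftb Q.nid
theorem pSPEC : S_SPEC := _root_.W54.FKM.spec W214.FKM.expc
theorem pGEOH : S_GEOH := W583.FKM.geoh cross
theorem pGEO : S_GEO := W583.FKM.geo W583.FKM.deep cross angc pGEOH W583.FKM.front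
theorem pTOPK : S_TOPK := topk Q.walg pCPT W583.FKM.tail pCOMM2
theorem pTOPA : S_TOPA := topa pTOPK pPAR
theorem pTOPB : S_TOPB := topb pSVC pPARC W214.FKM.xy
theorem pTOPC : S_TOPC := W583.FKM.topc pSVC pPAR
theorem pTOP : S_TOP := top pTOPA pTOPB pTOPC
theorem pEDGEA : S_EDGEA := edgea Q.walg pCPT W583.FKM.tail pCOMM2 pPAR
theorem pEDGEB : S_EDGEB := edgeb pTOP pPARC Q.fin W214.FKM.blk

theorem thm : S_MAIN :=
  main _root_.W54.FKM.kato pWPOL pSHIFT W214.FKM.tcfc W214.FKM.expc pSPEC Q.wdec pLOC pCMP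
    W583.FKM.int pNUCV W583.FKM.front pGEO pEDGEA pEDGEB

end Pool.Agent.W809.FKM
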