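import Pool.Agent.W809.FKM.Defs

/-!
# Basic API: `HS m`, `sg`, `M`, `Lam`, antiunitaries
-/

set_option autoImplicit false

open scoped ComplexConjugate
open Complex

namespace Pool.Agent.W809.FKM

variable {m : ℕ}

theorem HS.ext {ψ φ : HS m} (h : ∀ x, ψ x = φ x) : ψ = φ := lp.ext (funext h)

@[simp] theorem add_app (ψ φ : HS m) (x : Lat) : (ψ + φ) x = ψ x + φ x := rfl
@[simp] theorem sub_app (ψ φ : HS m) (x : Lat) : (ψ - φ) x = ψ x - φ x := rfl
@[simp] theorem neg_app (ψ : HS m) (x : Lat) : (-ψ) x = -ψ x := rfl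
@[simp] theorem zero_app (x : Lat) : (0 : HS m) x = 0 := rfl
@[simp] theorem smul_app (c : ℂ) (ψ : HS m) (x : Lat) : (c • ψ) x = c • ψ x := rfl

/-- evaluation at a site, as a continuous linear map -/
noncomputable def ev (x : Lat) : HS m →L[ℂ] Vm m :=
  LinearMap.mkContinuous
    { toFun := fun ψ => ψ x
      map_add' := fun _ _ => rfl
      map_smul' := fun _ _ => rfl }
    1 (fun ψ => by
      rw [one_mul]
      exact lp.norm_apply_le_norm (by norm_num) (show lp (fun _ : Lat => Vm m) 2 from ψ) x)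

@[simp] theorem ev_app (x : Lat) (ψ : HS m) : ev x ψ = ψ x := rfl

theorem norm_app_le (ψ : HS m) (x : Lat) : ‖ψ x‖ ≤ ‖ψ‖ :=
  lp.norm_apply_le_norm (by norm_num) (show lp (fun _ : Lat => Vm m) 2 from ψ) x

theorem hasSum_normSq (ψ : HS m) : HasSum (fun x => ‖ψ x‖ ^ 2) (‖ψ‖ ^ 2) := by
  have h := lp.hasSum_norm (p := 2) (by norm_num) (show lp (fun _ : Lat => Vm m) 2 from ψ)
  have e : (2 : ENNReal).toReal = ((2 : ℕ) : ℝ) := by norm_num
  simp only [e, Real.rpow_natCast] at h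
  exact h

theorem sum_app {ι : Type} (s : Finset ι) (f : ι → HS m) (x : Lat) :
    (∑ i ∈ s, f i) x = ∑ i ∈ s, (f i) x :=
  map_sum (ev (m := m) x) f s

theorem hasSum_app {ι : Type} {f : ι → HS m} {ψ : HS m} (h : HasSum f ψ) (x : Lat) :
    HasSum (fun i => (f i) x) (ψ x) := h.mapL (ev x)

@[simp] theorem sg_self (x : Lat) (v : Vm m) : (sg x v) x = v :=
  lp.single_apply_self (E := fun _ : Lat => Vm m) 2 x v

theorem sg_ne {x y : Lat} (v : Vm m) (h : y ≠ x) : (sg x v) y = 0 :=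
  lp.single_apply_ne (E := fun _ : Lat => Vm m) 2 x v h

theorem sg_app (x y : Lat) (v : Vm m) : (sg x v) y = if y = x then v else 0 := by
  split_ifs with h
  · subst h; simp
  · exact sg_ne v h

theorem sg_add (x : Lat) (v w : Vm m) : sg x (v + w) = sg x v + sg x w := by
  refine HS.ext fun y => ?_
  rw [add_app, sg_app, sg_app, sg_app]
  split_ifs <;> simp

theorem sg_smul (x : Lat) (c : ℂ) (v : Vm m) : sg x (c • v) = c • sg x v := by
  refine HS.ext fun y => ?_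
  rw [smul_app, sg_app, sg_app]
  split_ifs <;> simp

@[simp] theorem sg_zero (x : Lat) : sg x (0 : Vm m) = 0 := by
  refine HS.ext fun y => ?_
  rw [sg_app]; simp

@[simp] theorem norm_sg (x : Lat) (v : Vm m) : ‖sg x v‖ = ‖v‖ :=
  lp.norm_single (E := fun _ : Lat => Vm m) (p := 2) (by norm_num) x v

/-- `sg x` as a continuous linear map -/
noncomputable def sgL (x : Lat) : Vm m →L[ℂ] HS m :=
  LinearMap.mkContinuous
    { toFun := fun v => sg x v
      map_add' := sg_add x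
      map_smul' := sg_smul x }
    1 (fun v => by rw [one_mul]; exact (norm_sg x v).le)

@[simp] theorem sgL_app (x : Lat) (v : Vm m) : sgL x v = sg x v := rfl

/-- `ψ = Σ_x sg x (ψ x)` -/
theorem hasSum_sg (ψ : HS m) : HasSum (fun x => sg x (ψ x)) ψ :=
  lp.hasSum_single (by norm_num) (show lp (fun _ : Lat => Vm m) 2 from ψ)

theorem hasSum_op (B : Op m) (ψ : HS m) : HasSum (fun y => B (sg y (ψ y))) (B ψ) :=
  (hasSum_sg ψ).mapL B

/-- two operators agreeing on all `sg y v` are equal -/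
theorem op_ext {B C : Op m} (h : ∀ y v, B (sg y v) = C (sg y v)) : B = C := by
  refine ContinuousLinearMap.ext fun ψ => ?_
  have h1 := hasSum_op B ψ
  have h2 := hasSum_op C ψ
  simp only [h] at h1
  exact h1.unique h2

theorem hasSum_inner (ψ φ : HS m) : HasSum (fun x => inner ℂ (ψ x) (φ x)) (inner ℂ ψ φ) :=
  lp.hasSum_inner (show lp (fun _ : Lat => Vm m) 2 from ψ) (show lp (fun _ : Lat => Vm m) 2 from φ)

theorem inner_sg_left (x : Lat) (v : Vm m) (ψ : HS m) :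
    inner ℂ (sg x v) ψ = inner ℂ v (ψ x) :=
  lp.inner_single_left (G := fun _ : Lat => Vm m) x v (show lp (fun _ : Lat => Vm m) 2 from ψ)

theorem inner_sg_right (x : Lat) (v : Vm m) (ψ : HS m) :
    inner ℂ ψ (sg x v) = inner ℂ (ψ x) v :=
  lp.inner_single_right (G := fun _ : Lat => Vm m) x v (show lp (fun _ : Lat => Vm m) 2 from ψ)

/-- blocks of the adjoint -/
theorem inner_star_sg (B : Op m) (x y : Lat) (v w : Vm m) :
    inner ℂ w ((star B (sg y v)) x) = inner ℂ ((B (sg x w)) y) v := by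
  rw [← inner_sg_left, ContinuousLinearMap.star_eq_adjoint,
    ContinuousLinearMap.adjoint_inner_right, inner_sg_right]

/-- multiplication operators -/
theorem M_app {f : Lat → ℂ} {C : ℝ} (hf : ∀ x, ‖f x‖ ≤ C) (ψ : HS m) (x : Lat) :
    (M f ψ) x = f x • ψ x := by
  have h : ∃ C : ℝ, ∀ x, ‖f x‖ ≤ C := ⟨C, hf⟩
  rw [M, dif_pos h]
  rfl

theorem M_sg {f : Lat → ℂ} {C : ℝ} (hf : ∀ x, ‖f x‖ ≤ C) (x : Lat) (v : Vm m) :
    M f (sg x v) = f x • sg x v := by
  refine HS.ext fun y => ?_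
  rw [M_app hf, smul_app, sg_app]
  split_ifs with h
  · rw [h]
  · simp

theorem norm_M_le {f : Lat → ℂ} {C : ℝ} (hf : ∀ x, ‖f x‖ ≤ C) : ‖(M f : Op m)‖ ≤ C := by
  have hC : 0 ≤ C := (norm_nonneg _).trans (hf 0)
  refine ContinuousLinearMap.opNorm_le_bound _ hC fun ψ => ?_
  have e : M f ψ = Mfun f C hf ψ := HS.ext fun x => by rw [M_app hf]; rfl
  rw [e]
  exact Mfun_norm f C hf ψ

theorem M_mul {f g : Lat → ℂ} {C D : ℝ} (hf : ∀ x, ‖f x‖ ≤ C) (hg : ∀ x, ‖g x‖ ≤ D) :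
    (M f * M g : Op m) = M (fun x => f x * g x) := by
  refine op_ext fun y v => ?_
  have hfg : ∀ x, ‖f x * g x‖ ≤ C * D := fun x => by
    rw [norm_mul]
    exact mul_le_mul (hf x) (hg x) (norm_nonneg _) ((norm_nonneg _).trans (hf x))
  change M f (M g (sg y v)) = _
  rw [M_sg hg, map_smul, M_sg hf, M_sg hfg, smul_smul, mul_comm]

theorem M_add {f g : Lat → ℂ} {C D : ℝ} (hf : ∀ x, ‖f x‖ ≤ C) (hg : ∀ x, ‖g x‖ ≤ D) :
    (M f + M g : Op m) = M (fun x => f x + g x) := by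
  refine op_ext fun y v => ?_
  have hfg : ∀ x, ‖f x + g x‖ ≤ C + D := fun x =>
    (norm_add_le _ _).trans (add_le_add (hf x) (hg x))
  change M f (sg y v) + M g (sg y v) = _
  rw [M_sg hg, M_sg hf, M_sg hfg, add_smul]

theorem M_sub {f g : Lat → ℂ} {C D : ℝ} (hf : ∀ x, ‖f x‖ ≤ C) (hg : ∀ x, ‖g x‖ ≤ D) :
    (M f - M g : Op m) = M (fun x => f x - g x) := by
  refine op_ext fun y v => ?_
  have hfg : ∀ x, ‖f x - g x‖ ≤ C + D := fun x =>
    (norm_sub_le _ _).trans (add_le_add (hf x) (hg x))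
  change M f (sg y v) - M g (sg y v) = _
  rw [M_sg hg, M_sg hf, M_sg hfg, sub_smul]

theorem M_smul {f : Lat → ℂ} {C : ℝ} (c : ℂ) (hf : ∀ x, ‖f x‖ ≤ C) :
    (c • M f : Op m) = M (fun x => c * f x) := by
  refine op_ext fun y v => ?_
  have hcf : ∀ x, ‖c * f x‖ ≤ ‖c‖ * C := fun x => by
    rw [norm_mul]; exact mul_le_mul_of_nonneg_left (hf x) (norm_nonneg _)
  change c • M f (sg y v) = _
  rw [M_sg hf, M_sg hcf, smul_smul]

theorem M_one : (M (fun _ => 1) : Op m) = 1 := by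
  refine op_ext fun y v => ?_
  rw [M_sg (C := 1) (fun _ => by simp)]
  simp

theorem star_M {f : Lat → ℂ} {C : ℝ} (hf : ∀ x, ‖f x‖ ≤ C) :
    (star (M f) : Op m) = M (fun x => conj (f x)) := by
  have hf' : ∀ x, ‖conj (f x)‖ ≤ C := fun x => by rw [RCLike.norm_conj]; exact hf x
  refine ContinuousLinearMap.ext fun ψ => HS.ext fun x => ?_
  refine ext_inner_left ℂ fun w => ?_
  rw [← inner_sg_left, ContinuousLinearMap.star_eq_adjoint,
    ContinuousLinearMap.adjoint_inner_right, M_sg hf, M_app hf', inner_smul_left,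
    inner_smul_right, inner_sg_left]

theorem ind_le (S : Set Lat) (x : Lat) : ‖S.indicator (1 : Lat → ℂ) x‖ ≤ 1 := by
  by_cases h : x ∈ S
  · simp [h]
  · simp [h]

theorem Lam_app (S : Set Lat) (ψ : HS m) (x : Lat) :
    (Lam S ψ) x = S.indicator (fun x => ψ x) x := by
  rw [Lam, M_app (ind_le S)]
  by_cases h : x ∈ S
  · simp [h]
  · simp [h]

theorem Lam_sg_mem {S : Set Lat} {x : Lat} (h : x ∈ S) (v : Vm m) :
    Lam S (sg x v) = sg x v := by
  rw [Lam, M_sg (ind_le S)]; simp [h]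

theorem Lam_sg_notMem {S : Set Lat} {x : Lat} (h : x ∉ S) (v : Vm m) :
    Lam S (sg x v) = 0 := by
  rw [Lam, M_sg (ind_le S)]; simp [h]

theorem norm_Lam_le (S : Set Lat) : ‖(Lam S : Op m)‖ ≤ 1 := norm_M_le (ind_le S)

theorem Lam_sq (S : Set Lat) : (Lam S * Lam S : Op m) = Lam S := by
  refine op_ext fun y v => ?_
  change Lam S (Lam S (sg y v)) = _
  by_cases h : y ∈ S
  · rw [Lam_sg_mem h, Lam_sg_mem h]
  · rw [Lam_sg_notMem h, map_zero]

theorem Lam_comm (S T : Set Lat) : (Lam S * Lam T : Op m) = Lam T * Lam S := by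
  refine op_ext fun y v => ?_
  change Lam S (Lam T (sg y v)) = Lam T (Lam S (sg y v))
  by_cases h : y ∈ S <;> by_cases h' : y ∈ T <;>
    simp [Lam_sg_mem, Lam_sg_notMem, h, h']

theorem Lam_compl (S : Set Lat) : (Lam Sᶜ : Op m) = 1 - Lam S := by
  refine op_ext fun y v => ?_
  change _ = sg y v - Lam S (sg y v)
  by_cases h : y ∈ S
  · rw [Lam_sg_mem h, Lam_sg_notMem (by simpa using h), sub_self]
  · rw [Lam_sg_notMem h, Lam_sg_mem (by simpa using h), sub_zero]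

theorem star_Lam (S : Set Lat) : (star (Lam S) : Op m) = Lam S := by
  rw [Lam, star_M (ind_le S)]
  congr 1
  funext x
  by_cases h : x ∈ S
  · simp [h]
  · simp [h]

theorem dst_comm (x y : Lat) : dst x y = dst y x := norm_sub_rev _ _

theorem dst_self (x : Lat) : dst x x = 0 := by simp [dst]

theorem dst_nonneg (x y : Lat) : 0 ≤ dst x y := norm_nonneg _

theorem dst_triangle (x y z : Lat) : dst x z ≤ dst x y + dst y z := by
  unfold dst
  calc ‖pt x - pt z‖ = ‖(pt x - pt y) + (pt y - pt z)‖ := by congr 1; ring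
    _ ≤ _ := norm_add_le _ _

theorem pt_sub (x y : Lat) : pt (x - y) = pt x - pt y := by
  simp [pt]; ring

theorem dst_eq (x y : Lat) : dst x y = ‖pt (x - y)‖ := by rw [pt_sub]; rfl

theorem abs_fst_le (x : Lat) : |(x.1 : ℝ)| ≤ ‖pt x‖ := by
  have := Complex.abs_re_le_norm (pt x)
  simpa [pt] using this

theorem abs_snd_le (x : Lat) : |(x.2 : ℝ)| ≤ ‖pt x‖ := by
  have := Complex.abs_im_le_norm (pt x)
  simpa [pt] using this

/-- only finitely many sites in a disc -/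
theorem finite_ball (r : ℝ) : {x : Lat | ‖pt x‖ ≤ r}.Finite := by
  have h : {x : Lat | ‖pt x‖ ≤ r} ⊆
      (Set.Icc (-⌈r⌉) ⌈r⌉) ×ˢ (Set.Icc (-⌈r⌉) ⌈r⌉) := by
    intro x hx
    have h1 := (abs_fst_le x).trans hx
    have h2 := (abs_snd_le x).trans hx
    rw [abs_le] at h1 h2
    have hr := Int.le_ceil r
    refine Set.mem_prod.2 ⟨⟨?_, ?_⟩, ⟨?_, ?_⟩⟩
    · have : (-(⌈r⌉ : ℤ) : ℝ) ≤ x.1 := by linarith [h1.1]
      exact_mod_cast this
    · have : (x.1 : ℝ) ≤ ⌈r⌉ := by linarith [h1.2]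
      exact_mod_cast this
    · have : (-(⌈r⌉ : ℤ) : ℝ) ≤ x.2 := by linarith [h2.1]
      exact_mod_cast this
    · have : (x.2 : ℝ) ≤ ⌈r⌉ := by linarith [h2.2]
      exact_mod_cast this
  exact ((Set.finite_Icc _ _).prod (Set.finite_Icc _ _)).subset h

section anti

variable {E : Type} [NormedAddCommGroup E] [InnerProductSpace ℂ E]

theorem inner_T (Θ : E ≃ₗᵢ⋆[ℂ] E) (x y : E) : inner ℂ (Θ x) (Θ y) = inner ℂ y x := by
  have h1 : ∀ x : E, Θ (I • x) = -(I • Θ x) := fun x => by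
    rw [Θ.map_smulₛₗ]; simp
  have key : ∀ x y : E, (inner ℂ (Θ x) (Θ y)).re = (inner ℂ y x).re := fun x y => by
    have a1 := norm_add_sq (𝕜 := ℂ) (Θ x) (Θ y)
    have a2 := norm_add_sq (𝕜 := ℂ) x y
    rw [← map_add, Θ.norm_map, Θ.norm_map, Θ.norm_map] at a1
    have a3 : (inner ℂ (Θ x) (Θ y)).re = (inner ℂ x y).re := by
      have b1 : RCLike.re (inner ℂ (Θ x) (Θ y)) = (inner ℂ (Θ x) (Θ y)).re := rfl
      have b2 : RCLike.re (inner ℂ x y) = (inner ℂ x y).re := rfl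
      rw [b1] at a1; rw [b2] at a2
      linarith
    rw [a3, ← inner_conj_symm, Complex.conj_re]
  apply Complex.ext
  · exact key x y
  · have h := key (I • x) y
    rw [h1, inner_neg_left, inner_smul_left, inner_smul_right] at h
    simpa using h

theorem inner_T' (Θ : E ≃ₗᵢ⋆[ℂ] E) (hΘ : ∀ x, Θ (Θ x) = -x) (x y : E) :
    inner ℂ (Θ x) y = -inner ℂ (Θ y) x := by
  have h := inner_T Θ x (Θ y)
  rw [hΘ, inner_neg_right] at h
  rw [← h, neg_neg]

end anti

end Pool.Agent.W809.FKM
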