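import Mathlib

/-!
# Definitions for the statement of MP_120ee9_mp

The plane is `ℂ`; a lattice site `x : ℤ × ℤ` is the point `point x = x.1 + i x.2`.
-/

set_option autoImplicit false

open Complex

namespace Pool.Agent.W809.FKM.Pub

section generic

variable {E : Type} [NormedAddCommGroup E] [InnerProductSpace ℂ E]

/-- `T` is antiunitary and `T² = -1` -/
def AntiunitarySqNegOne (T : E → E) : Prop :=
  (∀ ψ φ, T (ψ + φ) = T ψ + T φ) ∧ (∀ (c : ℂ) (ψ : E), T (c • ψ) = (starRingEnd ℂ c) • T ψ) ∧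
    (∀ ψ, ‖T ψ‖ = ‖ψ‖) ∧ (∀ ψ, T (T ψ) = -ψ)

/-- `H` commutes with `T` -/
def CommutesWith (T : E → E) (H : E →L[ℂ] E) : Prop := ∀ ψ, H (T ψ) = T (H ψ)

/-- `A - P B P - Q C Q` -/
noncomputable def interfaceError (P Q A B C : E →L[ℂ] E) : E →L[ℂ] E :=
  A - P * B * P - Q * C * Q

/-- the parity of the dimension of the kernel of `P U P + 1 - P` -/
noncomputable def kernelParity (P U : E →L[ℂ] E) : ℕ :=
  Module.finrank ℂ (LinearMap.ker ((P * U * P + (1 - P) : E →L[ℂ] E) : E →ₗ[ℂ] E)) % 2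

variable [CompleteSpace E]

/-- self-adjoint -/
def SelfAdj (H : E →L[ℂ] E) : Prop := IsSelfAdjoint H

/-- `e` is not in the spectrum of `H` -/
def InGap (H : E →L[ℂ] E) (e : ℝ) : Prop := e ∉ spectrum ℝ H

/-- the Fermi projection `χ_{(-∞,e)}(H)` -/
noncomputable def fermiProjection (H : E →L[ℂ] E) (e : ℝ) : E →L[ℂ] E :=
  cfc (fun t : ℝ => if t < e then (1 : ℝ) else 0) H

/-- `μ` is the spectral measure of the self-adjoint operator `H` at `ψ` -/
def IsSpectralMeasure (H : E →L[ℂ] E) (ψ : E) (μ : MeasureTheory.Measure ℝ) : Prop :=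
  MeasureTheory.IsFiniteMeasure μ ∧ ∀ f : ℝ → ℝ, Continuous f →
    MeasureTheory.Integrable f μ ∧ ((∫ t, f t ∂μ : ℝ) : ℂ) = inner ℂ ψ (cfc f H ψ)

/-- the absolutely continuous spectrum of a bounded self-adjoint operator: the energies `e`
such that every neighbourhood of `e` is charged by an absolutely continuous spectral measure -/
def acSpectrum (H : E →L[ℂ] E) : Set ℝ :=
  {e | ∀ ε : ℝ, 0 < ε → ∃ (ψ : E) (μ : MeasureTheory.Measure ℝ), IsSpectralMeasure H ψ μ ∧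
    μ.AbsolutelyContinuous MeasureTheory.volume ∧ 0 < μ (Set.Ioo (e - ε) (e + ε))}

end generic

/-- the Hilbert space `ℓ²(ℤ²; ℂ^m)` -/
def Hilb (m : ℕ) : Type := lp (fun _ : ℤ × ℤ => EuclideanSpace ℂ (Fin m)) 2

noncomputable instance (m : ℕ) : NormedAddCommGroup (Hilb m) :=
  (lp.normedAddCommGroup :
    NormedAddCommGroup (lp (fun _ : ℤ × ℤ => EuclideanSpace ℂ (Fin m)) 2))

noncomputable instance (m : ℕ) : InnerProductSpace ℂ (Hilb m) :=
  (lp.instInnerProductSpace :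
    InnerProductSpace ℂ (lp (fun _ : ℤ × ℤ => EuclideanSpace ℂ (Fin m)) 2))

instance (m : ℕ) : CompleteSpace (Hilb m) :=
  inferInstanceAs (CompleteSpace (lp (fun _ : ℤ × ℤ => EuclideanSpace ℂ (Fin m)) 2))

/-- the value at the site `x` of an element of `ℓ²(ℤ²; ℂ^m)` -/
def value {m : ℕ} (ψ : Hilb m) (x : ℤ × ℤ) : EuclideanSpace ℂ (Fin m) :=
  (ψ : lp (fun _ : ℤ × ℤ => EuclideanSpace ℂ (Fin m)) 2).1 x

/-- the vector `v` placed at the site `x` -/
noncomputable def single {m : ℕ} (x : ℤ × ℤ) (v : EuclideanSpace ℂ (Fin m)) : Hilb m :=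
  (lp.single (E := fun _ : ℤ × ℤ => EuclideanSpace ℂ (Fin m)) 2 x v :
    lp (fun _ : ℤ × ℤ => EuclideanSpace ℂ (Fin m)) 2)

/-- bounded operators on `ℓ²(ℤ²; ℂ^m)` -/
abbrev Op (m : ℕ) : Type := Hilb m →L[ℂ] Hilb m

/-- the site `x` as a point of the plane `ℂ` -/
noncomputable def point (x : ℤ × ℤ) : ℂ := (x.1 : ℂ) + (x.2 : ℂ) * I

/-- block bound `‖B_{xy}‖ ≤ k x y` -/
def BlockBound {m : ℕ} (B : Op m) (k : ℤ × ℤ → ℤ × ℤ → ℝ) : Prop :=
  ∀ (x y : ℤ × ℤ) (v : EuclideanSpace ℂ (Fin m)), ‖value (B (single y v)) x‖ ≤ k x y * ‖v‖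

/-- local operators -/
def IsLocal {m : ℕ} (H : Op m) : Prop :=
  ∃ ν : ℝ, 0 < ν ∧ BlockBound H (fun x y => ν⁻¹ * Real.exp (-(ν * ‖point x - point y‖)))

open Classical in
/-- the operator of multiplication by the function `f` on `ℤ²`: the bounded operator `B` with
`(B ψ)(x) = f(x) ψ(x)` for all `ψ`, `x` -/
noncomputable def mulOp {m : ℕ} (f : ℤ × ℤ → ℂ) : Op m :=
  if h : ∃ B : Op m, ∀ ψ x, value (B ψ) x = f x • value ψ x then h.choose else 0

/-- the projection `Λ_S` onto the sites in `S` -/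
noncomputable def siteProjection {m : ℕ} (S : Set ℂ) : Op m :=
  mulOp ((point ⁻¹' S).indicator 1)

/-- the unitary `U = exp(i arg(X₁ + i X₂))` -/
noncomputable def fluxUnitary {m : ℕ} : Op m := mulOp (fun x => exp (I * (arg (point x) : ℂ)))

/-- the Fu-Kane-Mele index `N₂(H)` at the Fermi energy `e` -/
noncomputable def fkmIndex {m : ℕ} (H : Op m) (e : ℝ) : ℕ :=
  kernelParity (fermiProjection H e) fluxUnitary

/-- `Θ` commutes with the position operators `X₁`, `X₂` -/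
def CommutesWithPositions {m : ℕ} (Θ : Hilb m → Hilb m) : Prop :=
  ∀ ψ φ : Hilb m,
    ((∀ x, value φ x = (x.1 : ℂ) • value ψ x) → ∀ x, value (Θ φ) x = (x.1 : ℂ) • value (Θ ψ) x) ∧
    ((∀ x, value φ x = (x.2 : ℂ) • value ψ x) → ∀ x, value (Θ φ) x = (x.2 : ℂ) • value (Θ ψ) x)

/-- local Hamiltonian (bounded, self-adjoint) that commutes with `Θ` -/
def IsTRSHamiltonian {m : ℕ} (Θ : Hilb m → Hilb m) (H : Op m) : Prop :=
  SelfAdj H ∧ IsLocal H ∧ CommutesWith Θ H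

/-- `S` is the parabolic region `{y₁ ≥ 0, |y₂| ≤ y₁^α}` moved by `z ↦ c + w z`, `‖w‖ = 1` -/
def IsParabolicRegion (S : Set ℂ) : Prop :=
  ∃ (α : ℝ) (c w : ℂ), 0 < α ∧ ‖w‖ = 1 ∧
    S = (fun z : ℂ => c + w * z) '' {y : ℂ | 0 ≤ y.re ∧ |y.im| ≤ y.re ^ α}

/-- `Ω` contains a parabolic region -/
def ContainsParabolicRegion (Ω : Set ℂ) : Prop := ∃ S, IsParabolicRegion S ∧ S ⊆ Ω

/-- `Hh - Λ_Ω H₊ Λ_Ω - Λ_Ωᶜ H₋ Λ_Ωᶜ` decays away from the boundary of `Ω` -/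
def InterfaceCondition {m : ℕ} (Hp Hm Hh : Op m) (Ω : Set ℂ) : Prop :=
  ∃ ν : ℝ, 0 < ν ∧ BlockBound
    (interfaceError (siteProjection Ω) (siteProjection Ωᶜ) Hh Hp Hm)
    (fun x _ => ν⁻¹ * Real.exp (-(ν * Metric.infDist (point x) (frontier Ω))))

end Pool.Agent.W809.FKM.Pub
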