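import Pool.Agent.W809.FKM.All
import Pool.Agent.W809.FKM.Pub

set_option autoImplicit false

open Complex

namespace Pool.Agent.W809.FKM.Bridge

open Pool.Agent.W809.FKM

variable {m : ℕ}

theorem inst1 (m : ℕ) : (Pub.instNormedAddCommGroupHilb m) = (instNormedAddCommGroupHS m) := rfl

theorem mulOp_spec (f : Lat → ℂ) (B : Op m) (hB : ∀ (ψ : HS m) x, (B ψ) x = f x • ψ x) :
    (Pub.mulOp f : Pub.Op m) = B := by
  have h : ∃ B : Pub.Op m, ∀ ψ x, Pub.value (B ψ) x = f x • Pub.value ψ x := ⟨B, hB⟩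
  have e : (Pub.mulOp f : Pub.Op m) = h.choose := by
    unfold Pub.mulOp
    exact dif_pos h
  rw [e]
  have hs := h.choose_spec
  refine ContinuousLinearMap.ext fun ψ => ?_
  refine lp.ext (funext fun x => ?_)
  exact (hs ψ x).trans (hB ψ x).symm

theorem lam_eq (S : Set ℂ) : (Pub.siteProjection S : Pub.Op m) = (Lam (pt ⁻¹' S) : Op m) := by
  refine mulOp_spec _ _ fun ψ x => ?_
  refine M_app (C := 1) (fun x => ?_) ψ x
  by_cases hx : x ∈ pt ⁻¹' S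
  · rw [Set.indicator_of_mem hx]; simp
  · rw [Set.indicator_of_notMem hx]; simp

theorem U_eq : (Pub.fluxUnitary : Pub.Op m) = (U : Op m) := by
  refine mulOp_spec _ _ fun ψ x => ?_
  refine M_app (C := 1) (fun x => ?_) ψ x
  rw [mul_comm, Complex.norm_exp_ofReal_mul_I]

theorem fermi_eq (H : Op m) (e : ℝ) : Pub.fermiProjection (E := Pub.Hilb m) H e = fermi H e := rfl

theorem par_eq (P V : Op m) : Pub.kernelParity (E := Pub.Hilb m) P V =
    par (P * V * P + (1 - P)) := rfl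

theorem idx_eq (H : Op m) (e : ℝ) : Pub.fkmIndex (m := m) H e = N2 H e := by
  unfold Pub.fkmIndex
  rw [U_eq]
  exact (par_eq _ _)

theorem loc_eq (H : Op m) (h : Pub.IsLocal (m := m) H) : Loc H := h

theorem ac_eq (H : Op m) : Pub.acSpectrum (E := Pub.Hilb m) H = SpecAC H := rfl

/-- the bundled antiunitary -/
noncomputable def bund (T : HS m → HS m) (h : Pub.AntiunitarySqNegOne (E := HS m) T) :
    HS m ≃ₗᵢ⋆[ℂ] HS m where
  toFun := T
  map_add' := h.1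
  map_smul' := h.2.1
  invFun := fun ψ => - T ψ
  left_inv := fun ψ => by
    change - T (T ψ) = ψ
    rw [h.2.2.2 ψ, neg_neg]
  right_inv := fun ψ => by
    change T (-T ψ) = ψ
    have e : T (-T ψ) = - T (T ψ) := by
      have := h.2.1 (-1) (T ψ)
      simpa using this
    rw [e, h.2.2.2 ψ, neg_neg]
  norm_map' := h.2.2.1

theorem bund_coe (T : HS m → HS m) (h : Pub.AntiunitarySqNegOne (E := HS m) T) (ψ : HS m) :
    bund T h ψ = T ψ := rfl

theorem main (m : ℕ) (Θ : Pub.Hilb m → Pub.Hilb m) (Hp Hm Hh : Pub.Op m) (Ω : Set ℂ) (G : Set ℝ)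
    (hΘ : Pub.AntiunitarySqNegOne Θ) (hX : Pub.CommutesWithPositions Θ)
    (hp : Pub.IsTRSHamiltonian Θ Hp) (hm : Pub.IsTRSHamiltonian Θ Hm)
    (hh : Pub.IsTRSHamiltonian Θ Hh)
    (hΩ : Pub.ContainsParabolicRegion Ω) (hΩc : Pub.ContainsParabolicRegion Ωᶜ)
    (hI : Pub.InterfaceCondition Hp Hm Hh Ω)
    (hG : ∀ e ∈ G, Pub.InGap Hp e ∧ Pub.InGap Hm e ∧ Pub.fkmIndex Hp e ≠ Pub.fkmIndex Hm e) :
    G ⊆ Pub.acSpectrum Hh := by
  intro e he
  obtain ⟨g1, g2, g3⟩ := hG e he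
  have n3 : N2 (Hp : Op m) e ≠ N2 (Hm : Op m) e := by
    rw [← idx_eq, ← idx_eq]
    exact g3
  have i3 : Interface (Hp : Op m) (Hm : Op m) (Hh : Op m) Ω := by
    obtain ⟨ν, h0, h1⟩ := hI
    refine ⟨ν, h0, ?_⟩
    rw [← lam_eq, ← lam_eq]
    exact h1
  have r := thm m (bund Θ hΘ) Hp Hm Hh Ω e hΘ.2.2.2
    ⟨fun ψ φ h x => (hX ψ φ).1 h x, fun ψ φ h x => (hX ψ φ).2 h x⟩ hp.1 hm.1 hh.1
    hp.2.1 hm.2.1 hh.2.1 hp.2.2 hm.2.2 hh.2.2 hΩ hΩc i3 g1 g2 n3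
  exact r

end Pool.Agent.W809.FKM.Bridge
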