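import Mathlib

/-!
# Definitions for the curved edge problem (MP_120ee9_mp)

The plane is `ℂ`; a lattice site `x : ℤ × ℤ` is the point `pt x = x.1 + i x.2`.
-/

set_option autoImplicit false

open scoped ComplexConjugate
open Complex

namespace Pool.Agent.W809.FKM

/-- lattice sites -/
abbrev Lat := ℤ × ℤ

/-- the fibre `ℂ^m` -/
abbrev Vm (m : ℕ) : Type := EuclideanSpace ℂ (Fin m)

/-- the Hilbert space `ℓ²(ℤ²; ℂ^m)` -/
def HS (m : ℕ) : Type := lp (fun _ : Lat => Vm m) 2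

noncomputable instance (m : ℕ) : NormedAddCommGroup (HS m) :=
  inferInstanceAs (NormedAddCommGroup (lp (fun _ : Lat => Vm m) 2))

noncomputable instance (m : ℕ) : InnerProductSpace ℂ (HS m) :=
  inferInstanceAs (InnerProductSpace ℂ (lp (fun _ : Lat => Vm m) 2))

instance (m : ℕ) : CompleteSpace (HS m) :=
  inferInstanceAs (CompleteSpace (lp (fun _ : Lat => Vm m) 2))

/-- elements of `ℓ²(ℤ²; ℂ^m)` are functions on the lattice -/
instance (m : ℕ) : CoeFun (HS m) (fun _ => Lat → Vm m) :=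
  ⟨fun ψ => (show lp (fun _ : Lat => Vm m) 2 from ψ).1⟩

/-- bounded operators on `ℓ²(ℤ²; ℂ^m)` -/
abbrev Op (m : ℕ) : Type := HS m →L[ℂ] HS m

/-- the point `x₁ + i x₂` of the plane -/
noncomputable def pt (x : Lat) : ℂ := (x.1 : ℂ) + (x.2 : ℂ) * I

/-- Euclidean distance of two sites -/
noncomputable def dst (x y : Lat) : ℝ := ‖pt x - pt y‖

/-- the vector `v` placed at the site `x` -/
noncomputable def sg {m : ℕ} (x : Lat) (v : Vm m) : HS m :=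
  (lp.single (E := fun _ : Lat => Vm m) 2 x v : lp (fun _ : Lat => Vm m) 2)

/-- bound `‖B_{xy}‖ ≤ k x y` for the blocks of an operator -/
def KB {m : ℕ} (B : Op m) (k : Lat → Lat → ℝ) : Prop :=
  ∀ (x y : Lat) (v : Vm m), ‖(B (sg y v)) x‖ ≤ k x y * ‖v‖

/-- local operators -/
def Loc {m : ℕ} (H : Op m) : Prop :=
  ∃ ν : ℝ, 0 < ν ∧ KB H (fun x y => ν⁻¹ * Real.exp (-(ν * dst x y)))

theorem mul_mem {m : ℕ} (f : Lat → ℂ) (C : ℝ) (hC : ∀ x, ‖f x‖ ≤ C) (ψ : HS m) :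
    Memℓp (E := fun _ : Lat => Vm m) (fun x => f x • ψ x) 2 := by
  have hC0 : 0 ≤ C := (norm_nonneg _).trans (hC 0)
  have h := (lp.memℓp (show lp (fun _ : Lat => Vm m) 2 from ψ)).const_smul (C : ℂ)
  refine memℓp_gen ?_
  have h2 := (h.summable (by norm_num))
  refine Summable.of_nonneg_of_le (fun x => by positivity) (fun x => ?_) h2
  refine Real.rpow_le_rpow (norm_nonneg _) ?_ (by norm_num)
  rw [norm_smul, Pi.smul_apply, norm_smul, Complex.norm_real, Real.norm_of_nonneg hC0]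
  exact mul_le_mul_of_nonneg_right (hC x) (norm_nonneg _)

/-- multiplication of `ψ` by a bounded function, as a plain map on `ℓ²` -/
noncomputable def Mfun {m : ℕ} (f : Lat → ℂ) (C : ℝ) (hC : ∀ x, ‖f x‖ ≤ C) (ψ : HS m) : HS m :=
  (⟨fun x => f x • ψ x, mul_mem f C hC ψ⟩ : lp (fun _ : Lat => Vm m) 2)

theorem Mfun_norm {m : ℕ} (f : Lat → ℂ) (C : ℝ) (hC : ∀ x, ‖f x‖ ≤ C) (ψ : HS m) :
    ‖Mfun f C hC ψ‖ ≤ C * ‖ψ‖ := by
  have hC0 : 0 ≤ C := (norm_nonneg _).trans (hC 0)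
  have e1 : ‖((C : ℂ) • ψ : HS m)‖ = C * ‖ψ‖ := by
    rw [norm_smul, Complex.norm_real, Real.norm_of_nonneg hC0]
  rw [← e1]
  have p2 : 0 < (2 : ENNReal).toReal := by norm_num
  change ‖(show lp (fun _ : Lat => Vm m) 2 from Mfun f C hC ψ)‖ ≤
    ‖(show lp (fun _ : Lat => Vm m) 2 from (C : ℂ) • ψ)‖
  rw [lp.norm_eq_tsum_rpow p2, lp.norm_eq_tsum_rpow p2]
  refine Real.rpow_le_rpow (tsum_nonneg fun x => by positivity) ?_ (by norm_num)
  refine Summable.tsum_le_tsum (fun x => ?_) ((lp.memℓp _).summable p2)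
    ((lp.memℓp _).summable p2)
  refine Real.rpow_le_rpow (norm_nonneg _) ?_ (by norm_num)
  change ‖f x • ψ x‖ ≤ ‖(C : ℂ) • ψ x‖
  rw [norm_smul, norm_smul, Complex.norm_real, Real.norm_of_nonneg hC0]
  exact mul_le_mul_of_nonneg_right (hC x) (norm_nonneg _)

/-- multiplication by a bounded function, as a bounded operator -/
noncomputable def Maux {m : ℕ} (f : Lat → ℂ) (C : ℝ) (hC : ∀ x, ‖f x‖ ≤ C) : Op m :=
  LinearMap.mkContinuous
    { toFun := Mfun f C hC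
      map_add' := fun ψ φ => by
        refine lp.ext (funext fun x => ?_)
        exact smul_add (f x) (ψ x) (φ x)
      map_smul' := fun c ψ => by
        refine lp.ext (funext fun x => ?_)
        exact smul_comm (f x) c (ψ x) }
    C (Mfun_norm f C hC)

open Classical in
/-- the multiplication operator by a bounded function (`0` if the function is unbounded) -/
noncomputable def M {m : ℕ} (f : Lat → ℂ) : Op m :=
  if h : ∃ C : ℝ, ∀ x, ‖f x‖ ≤ C then Maux f h.choose h.choose_spec else 0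

/-- the projection `Λ_S` onto a set of sites -/
noncomputable def Lam {m : ℕ} (S : Set Lat) : Op m := M (S.indicator 1)

/-- `U = exp(i arg(X₁ + i X₂))` -/
noncomputable def U {m : ℕ} : Op m := M (fun x => exp (I * (arg (pt x) : ℂ)))

/-- the Fermi projection `χ_{(-∞,E)}(H)` -/
noncomputable def fermi {m : ℕ} (H : Op m) (E : ℝ) : Op m :=
  cfc (fun t : ℝ => if t < E then (1 : ℝ) else 0) H

/-- the parity of the dimension of the kernel -/
noncomputable def par {E : Type} [NormedAddCommGroup E] [NormedSpace ℂ E] (F : E →L[ℂ] E) : ℕ :=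
  Module.finrank ℂ (LinearMap.ker (F : E →ₗ[ℂ] E)) % 2

/-- the Fu-Kane-Mele index `N₂(H) = ind₂ (P U P + 1 - P)` -/
noncomputable def N2 {m : ℕ} (H : Op m) (E : ℝ) : ℕ :=
  par (fermi H E * U * fermi H E + (1 - fermi H E))

/-- parabolic region with the rigid motion `z ↦ c + w z`, `‖w‖ = 1` -/
def IsParabolic (S : Set ℂ) : Prop :=
  ∃ (α : ℝ) (c w : ℂ), 0 < α ∧ ‖w‖ = 1 ∧
    S = (fun z : ℂ => c + w * z) '' {y : ℂ | 0 ≤ y.re ∧ |y.im| ≤ y.re ^ α}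

/-- `Ω` contains a parabolic region -/
def HasPar (Ω : Set ℂ) : Prop := ∃ S, IsParabolic S ∧ S ⊆ Ω

/-- antiunitary `Θ` commutes with the position operators `X₁`, `X₂` -/
def CommX {m : ℕ} (Θ : HS m ≃ₗᵢ⋆[ℂ] HS m) : Prop :=
  (∀ ψ φ : HS m, (∀ x : Lat, φ x = (x.1 : ℂ) • ψ x) →
    ∀ x : Lat, (Θ φ) x = (x.1 : ℂ) • (Θ ψ) x) ∧
  (∀ ψ φ : HS m, (∀ x : Lat, φ x = (x.2 : ℂ) • ψ x) →
    ∀ x : Lat, (Θ φ) x = (x.2 : ℂ) • (Θ ψ) x)

/-- `[H, Θ] = 0` -/
def TRS {E : Type} [NormedAddCommGroup E] [InnerProductSpace ℂ E] (Θ : E ≃ₗᵢ⋆[ℂ] E)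
    (H : E →L[ℂ] E) : Prop := ∀ ψ, H (Θ ψ) = Θ (H ψ)

/-- `Θ`-odd: `F = - Θ F* Θ`, i.e. `F Θ = Θ F*` -/
def OddT {E : Type} [NormedAddCommGroup E] [InnerProductSpace ℂ E] [CompleteSpace E]
    (Θ : E ≃ₗᵢ⋆[ℂ] E) (F : E →L[ℂ] E) : Prop := ∀ ψ, F (Θ ψ) = Θ ((star F) ψ)

/-- the interface Hamiltonian condition -/
def Interface {m : ℕ} (Hp Hm Hh : Op m) (Ω : Set ℂ) : Prop :=
  ∃ ν : ℝ, 0 < ν ∧ KB (Hh - Lam (pt ⁻¹' Ω) * Hp * Lam (pt ⁻¹' Ω)
    - Lam (pt ⁻¹' Ωᶜ) * Hm * Lam (pt ⁻¹' Ωᶜ))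
    (fun x _ => ν⁻¹ * Real.exp (-(ν * Metric.infDist (pt x) (frontier Ω))))

/-- `μ` is the spectral measure of the self-adjoint operator `H` at `ψ` -/
def IsSpecMeas {E : Type} [NormedAddCommGroup E] [InnerProductSpace ℂ E] [CompleteSpace E]
    (H : E →L[ℂ] E) (ψ : E) (μ : MeasureTheory.Measure ℝ) : Prop :=
  MeasureTheory.IsFiniteMeasure μ ∧ ∀ f : ℝ → ℝ, Continuous f →
    MeasureTheory.Integrable f μ ∧ ((∫ t, f t ∂μ : ℝ) : ℂ) = inner ℂ ψ (cfc f H ψ)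

/-- the absolutely continuous spectrum of a bounded self-adjoint operator: the energies `e`
such that every neighbourhood of `e` is charged by the spectral measure of a vector of the
absolutely continuous subspace -/
def SpecAC {E : Type} [NormedAddCommGroup E] [InnerProductSpace ℂ E] [CompleteSpace E]
    (H : E →L[ℂ] E) : Set ℝ :=
  {e | ∀ ε : ℝ, 0 < ε → ∃ (ψ : E) (μ : MeasureTheory.Measure ℝ), IsSpecMeas H ψ μ ∧
    μ.AbsolutelyContinuous MeasureTheory.volume ∧ 0 < μ (Set.Ioo (e - ε) (e + ε))}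

/-- `Wi`: blocks bounded by a summable function of the difference -/
def Wi {m : ℕ} (B : Op m) : Prop :=
  ∃ b : Lat → ℝ, (∀ z, 0 ≤ b z) ∧ Summable b ∧ KB B (fun x y => b (x - y))

/-- nuclear operators -/
def Nuc {E : Type} [NormedAddCommGroup E] [InnerProductSpace ℂ E] (K : E →L[ℂ] E) : Prop :=
  ∃ (ι : Type) (φ ψ : ι → E), Summable (fun j => ‖φ j‖ * ‖ψ j‖) ∧
    ∀ x, HasSum (fun j => inner ℂ (ψ j) x • φ j) (K x)

/-- `e^{2πi A}` -/
noncomputable def eA {E : Type} [NormedAddCommGroup E] [InnerProductSpace ℂ E] [CompleteSpace E]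
    (A : E →L[ℂ] E) : E →L[ℂ] E := NormedSpace.exp ((2 * (Real.pi : ℂ) * I) • A)

/-- sites within `r` of the other side of `R` -/
def Sr (R : Set Lat) (r : ℝ) : Set Lat := {x | ∃ y, dst x y ≤ r ∧ (x ∈ R ↔ y ∉ R)}

/-- slowly varying functions -/
def SV (f : Lat → ℂ) : Prop :=
  ∀ ρ ε : ℝ, 0 < ρ → 0 < ε → ∃ n : ℝ, ∀ x y, n ≤ ‖pt x‖ → dst x y ≤ ρ → ‖f x - f y‖ ≤ ε

/-- compression to `R`, extended by `1` -/
noncomputable def TR {m : ℕ} (R : Set Lat) (V : Op m) : Op m :=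
  Lam R * V * Lam R + (1 - Lam R)

/-- the geometric input -/
def GeoD (Ω : Set ℂ) (R : Set Lat) : Prop :=
  ∃ h b : Lat → ℝ, (∀ x, 0 ≤ h x ∧ h x ≤ 1) ∧ SV (fun x => (h x : ℂ)) ∧
    SV (fun x => (b x : ℂ)) ∧ (∃ C, ∀ x, |b x| ≤ C) ∧
    (∀ x, exp (2 * Real.pi * I * (R.indicator (fun x => ((h x) ^ 2 : ℂ)) x)) =
      exp (I * arg (pt x)) * exp (I * b x)) ∧
    (∀ r : ℝ, 0 < r → ∃ n : ℝ, ∀ x ∈ Sr R r, n ≤ ‖pt x‖ →
      (r ≤ Metric.infDist (pt x) Ωᶜ ∧ ∀ y, dst x y ≤ r → h y = 1) ∨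
      (r ≤ Metric.infDist (pt x) Ω ∧ ∀ y, dst x y ≤ r → h y = 0))

end Pool.Agent.W809.FKM
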