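import Pool.Agent.W809.FKM.Top

set_option autoImplicit false

open scoped ComplexConjugate Topology
open Complex

namespace Pool.Agent.W809.FKM

variable {m : ℕ}

theorem col_small (h3 : S_TAIL) {Q D : Op m} (d : Lat → ℝ) (hd : ∀ x y, d x ≤ d y + dst x y)
    (hQ : Q * Q = Q) (hQW : Wi Q)
    (hD : ∀ ε : ℝ, 0 < ε → ∃ r : ℝ, ∀ x, r ≤ d x → ∀ v, ‖D (sg x v)‖ ≤ ε * ‖v‖) :
    ∀ ε : ℝ, 0 < ε → ∃ r : ℝ, ∀ x, r ≤ d x → ∀ v,
      ‖((Q + D) * (Q + D) - (Q + D)) (sg x v)‖ ≤ ε * ‖v‖ := by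
  intro ε hε
  obtain ⟨C, t, hC, ht0, ht, hT⟩ := h3 m Q hQW
  -- choose the radius
  have e1 : ∃ ρ : ℝ, ‖D‖ * t ρ ≤ ε / 2 := by
    have h : Filter.Tendsto (fun r => ‖D‖ * t r) Filter.atTop (𝓝 (‖D‖ * 0)) := ht.const_mul _
    rw [mul_zero] at h
    have := h.eventually (gt_mem_nhds (show (0:ℝ) < ε / 2 by linarith))
    obtain ⟨ρ, hρ⟩ := this.exists
    exact ⟨ρ, hρ.le⟩
  obtain ⟨ρ, hρ⟩ := e1
  set δ : ℝ := ε / (2 * (‖Q‖ + C + ‖D‖ + 1)) with hδ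
  have hden : 0 < 2 * (‖Q‖ + C + ‖D‖ + 1) := by positivity
  have hδ0 : 0 < δ := div_pos hε hden
  obtain ⟨r, hr⟩ := hD δ hδ0
  refine ⟨max r (r + ρ), fun x hx v => ?_⟩
  have hx1 : r ≤ d x := (le_max_left _ _).trans hx
  have hx2 : r + ρ ≤ d x := (le_max_right _ _).trans hx
  have b1 : ‖D (sg x v)‖ ≤ δ * ‖v‖ := hr x hx1 v
  have b2 : ‖D (Q (sg x v))‖ ≤ (C * δ + ‖D‖ * t ρ) * ‖v‖ := by
    refine hT D x ρ δ hδ0.le (fun y hy w => hr y ?_ w) v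
    have := hd x y
    linarith
  have e2 : ((Q + D) * (Q + D) - (Q + D)) (sg x v) =
      Q (D (sg x v)) + D (Q (sg x v)) + D (D (sg x v)) - D (sg x v) := by
    have e3 : (Q + D) * (Q + D) - (Q + D) = Q * D + D * Q + D * D - D := by
      rw [mul_add, add_mul, add_mul, hQ]; abel
    rw [e3]
    rfl
  rw [e2]
  have c1 : ‖Q (D (sg x v))‖ ≤ ‖Q‖ * (δ * ‖v‖) :=
    (Q.le_opNorm _).trans (mul_le_mul_of_nonneg_left b1 (norm_nonneg _))
  have c2 : ‖D (D (sg x v))‖ ≤ ‖D‖ * (δ * ‖v‖) :=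
    (D.le_opNorm _).trans (mul_le_mul_of_nonneg_left b1 (norm_nonneg _))
  have c3 := norm_sub_le (Q (D (sg x v)) + D (Q (sg x v)) + D (D (sg x v))) (D (sg x v))
  have c4 := norm_add_le (Q (D (sg x v)) + D (Q (sg x v))) (D (D (sg x v)))
  have c5 := norm_add_le (Q (D (sg x v))) (D (Q (sg x v)))
  have hv := norm_nonneg v
  have hδ2 : (‖Q‖ + C + ‖D‖ + 1) * δ = ε / 2 := by
    rw [hδ]; field_simp
  calc _ ≤ ‖Q‖ * (δ * ‖v‖) + (C * δ + ‖D‖ * t ρ) * ‖v‖ + ‖D‖ * (δ * ‖v‖) + δ * ‖v‖ := by linarith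
    _ = ((‖Q‖ + C + ‖D‖ + 1) * δ + ‖D‖ * t ρ) * ‖v‖ := by ring
    _ ≤ ε * ‖v‖ := by
        refine mul_le_mul_of_nonneg_right ?_ hv
        rw [hδ2]; linarith

theorem infDist_lip (S : Set ℂ) (x y : Lat) :
    Metric.infDist (pt x) S ≤ Metric.infDist (pt y) S + dst x y := by
  have := Metric.infDist_le_infDist_add_dist (s := S) (x := pt x) (y := pt y)
  rwa [Complex.dist_eq] at this

theorem A1_col (h3 : S_TAIL) {P P' : Op m} (Ω : Set ℂ) (hPW : Wi P) :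
    ∀ ε : ℝ, 0 < ε → ∃ r : ℝ, ∀ x, r ≤ Metric.infDist (pt x) Ωᶜ → ∀ v,
      ‖(Lam (pt ⁻¹' Ω) * P * Lam (pt ⁻¹' Ω) + Lam (pt ⁻¹' Ωᶜ) * P' * Lam (pt ⁻¹' Ωᶜ) - P : Op m)
        (sg x v)‖ ≤ ε * ‖v‖ := by
  intro ε hε
  obtain ⟨C, t, hC, ht0, ht, hT⟩ := h3 m P hPW
  obtain ⟨ρ, hρ1, hρ2⟩ := ((ht.eventually (gt_mem_nhds hε)).and (Filter.eventually_gt_atTop 0)).exists
  refine ⟨ρ + 1, fun x hx v => ?_⟩
  have hx1 : pt x ∉ Ωᶜ := notMem_of_infDist (by linarith)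
  have hx2 : x ∈ pt ⁻¹' Ω := by simpa using hx1
  have hx3 : x ∉ pt ⁻¹' Ωᶜ := hx1
  have e1 : (Lam (pt ⁻¹' Ω) * P * Lam (pt ⁻¹' Ω) + Lam (pt ⁻¹' Ωᶜ) * P' * Lam (pt ⁻¹' Ωᶜ) - P :
      Op m) (sg x v) = -(Lam (pt ⁻¹' Ωᶜ) (P (sg x v))) := by
    change Lam (pt ⁻¹' Ω) (P (Lam (pt ⁻¹' Ω) (sg x v))) +
      Lam (pt ⁻¹' Ωᶜ) (P' (Lam (pt ⁻¹' Ωᶜ) (sg x v))) - P (sg x v) = _
    rw [Lam_sg_mem hx2, Lam_sg_notMem hx3, map_zero, map_zero, add_zero, Set.preimage_compl,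
      Lam_compl]
    change _ = -(P (sg x v) - Lam (pt ⁻¹' Ω) (P (sg x v)))
    abel
  rw [e1, norm_neg]
  have h := hT (Lam (pt ⁻¹' Ωᶜ)) x ρ 0 le_rfl (fun y hy w => by
    have : pt y ∉ Ωᶜ := notMem_of_dst hx (by linarith)
    rw [Lam_sg_notMem (show y ∉ pt ⁻¹' Ωᶜ from this)]
    simp) v
  refine h.trans (mul_le_mul_of_nonneg_right ?_ (norm_nonneg _))
  rw [mul_zero, zero_add]
  calc ‖(Lam (pt ⁻¹' Ωᶜ) : Op m)‖ * t ρ ≤ 1 * t ρ :=
        mul_le_mul_of_nonneg_right (norm_Lam_le _) (ht0 ρ)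
    _ ≤ ε := by rw [one_mul]; exact hρ1.le

theorem path_small {A B P : Op m} (s : ℝ) (d : Lat → ℝ)
    (hA : ∀ ε : ℝ, 0 < ε → ∃ r : ℝ, ∀ x, r ≤ d x → ∀ v, ‖(A - P) (sg x v)‖ ≤ ε * ‖v‖)
    (hB : ∀ ε : ℝ, 0 < ε → ∃ r : ℝ, ∀ x, r ≤ d x → ∀ v, ‖(B - P) (sg x v)‖ ≤ ε * ‖v‖) :
    ∀ ε : ℝ, 0 < ε → ∃ r : ℝ, ∀ x, r ≤ d x → ∀ v,
      ‖(((1 - s : ℝ) : ℂ) • A + (s : ℂ) • B - P) (sg x v)‖ ≤ ε * ‖v‖ := by
  intro ε hε
  set δ : ℝ := ε / (|1 - s| + |s| + 1) with hδ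
  have hden : 0 < |1 - s| + |s| + 1 := by positivity
  have hδ0 : 0 < δ := div_pos hε hden
  obtain ⟨r1, h1⟩ := hA δ hδ0
  obtain ⟨r2, h2⟩ := hB δ hδ0
  refine ⟨max r1 r2, fun x hx v => ?_⟩
  have e : (((1 - s : ℝ) : ℂ) • A + (s : ℂ) • B - P) = ((1 - s : ℝ) : ℂ) • (A - P) +
      (s : ℂ) • (B - P) := by
    rw [smul_sub, smul_sub]
    have : P = ((1 - s : ℝ) : ℂ) • P + (s : ℂ) • P := by
      rw [← add_smul]; push_cast; simp
    nth_rewrite 1 [this]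
    abel
  rw [e]
  change ‖((1 - s : ℝ) : ℂ) • (A - P) (sg x v) + (s : ℂ) • (B - P) (sg x v)‖ ≤ _
  have a1 := h1 x ((le_max_left _ _).trans hx) v
  have a2 := h2 x ((le_max_right _ _).trans hx) v
  refine (norm_add_le _ _).trans ?_
  rw [norm_smul, norm_smul, Complex.norm_real, Complex.norm_real, Real.norm_eq_abs,
    Real.norm_eq_abs]
  have b1 := mul_le_mul_of_nonneg_left a1 (abs_nonneg (1 - s))
  have b2 := mul_le_mul_of_nonneg_left a2 (abs_nonneg s)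
  have hδ2 : (|1 - s| + |s| + 1) * δ = ε := by rw [hδ]; field_simp
  have hv := norm_nonneg v
  nlinarith [mul_nonneg hδ0.le hv]

theorem edgea (h1 : S_WALG) (h2 : S_CPT) (h3 : S_TAIL) (h4 : S_COMM2) (h5 : S_PAR) : S_EDGEA := by
  intro m Θ A P P' Ω R hΘ hX hAs hAT hAW hPP hPs hPT hPW hPP' hPs' hPT' hPW' hd hd' hG
  obtain ⟨h, b, hh, hsv, bsv, hb, hid, hc⟩ := hG
  obtain ⟨wmul, wadd, wstar, wsmul, wM⟩ := h1 m
  set L : Op m := Lam (pt ⁻¹' Ω) with hL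
  set L' : Op m := Lam (pt ⁻¹' Ωᶜ) with hL'
  set A1 : Op m := L * P * L + L' * P' * L' with hA1
  have wLam : ∀ S : Set Lat, Wi (Lam S : Op m) := fun S => wM _ 1 (ind_le S)
  have wA1 : Wi A1 := wadd _ _ (wmul _ _ (wmul _ _ (wLam _) hPW) (wLam _))
    (wmul _ _ (wmul _ _ (wLam _) hPW') (wLam _))
  set F : ℝ → Op m := fun s => ((1 - s : ℝ) : ℂ) • A + (s : ℂ) • A1 with hF
  have wF : ∀ s, Wi (F s) := fun s => wadd _ _ (wsmul _ _ hAW) (wsmul _ _ wA1)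
  have colA1 := A1_col (m := m) (P := P) (P' := P') h3 Ω hPW
  have colA1' : ∀ ε : ℝ, 0 < ε → ∃ r : ℝ, ∀ x, r ≤ Metric.infDist (pt x) Ω → ∀ v,
      ‖(A1 - P') (sg x v)‖ ≤ ε * ‖v‖ := by
    have := A1_col (m := m) (P := P') (P' := P) h3 Ωᶜ hPW'
    rw [compl_compl] at this
    rw [hA1, add_comm (L * P * L)]
    exact this
  have key : ∀ s, IsCompactOperator (eA (F s) * Lam R - Lam R * eA (F s) : Op m) := by
    intro s
    refine h4 m (F s) R (wF s) fun r hr => ?_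
    have wX : Wi ((F s * F s - F s) * Lam (Sr R r)) := by
      have e : F s * F s - F s = F s * F s + (-1 : ℂ) • F s := by rw [neg_one_smul]; abel
      rw [e]
      exact wmul _ _ (wadd _ _ (wmul _ _ (wF s) (wF s)) (wsmul _ _ (wF s))) (wLam _)
    refine h2 m _ wX fun ε hε => ?_
    have d1 := path_small (A := A) (B := A1) (P := P) s (fun x => Metric.infDist (pt x) Ωᶜ) hd colA1
    have d2 := path_small (A := A) (B := A1) (P := P') s (fun x => Metric.infDist (pt x) Ω) hd' colA1'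
    obtain ⟨r1, k1⟩ := col_small h3 (Q := P) (D := F s - P) (fun x => Metric.infDist (pt x) Ωᶜ)
      (infDist_lip Ωᶜ) hPP hPW d1 ε hε
    obtain ⟨r2, k2⟩ := col_small h3 (Q := P') (D := F s - P') (fun x => Metric.infDist (pt x) Ω)
      (infDist_lip Ω) hPP' hPW' d2 ε hε
    obtain ⟨n, hn⟩ := hc (max r (max r1 r2)) (lt_of_lt_of_le hr (le_max_left _ _))
    refine ⟨n, fun y hy v => ?_⟩
    have e0 : ((F s * F s - F s) * Lam (Sr R r) : Op m) (sg y v) =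
        (F s * F s - F s) (Lam (Sr R r) (sg y v)) := rfl
    rw [e0]
    by_cases hyS : y ∈ Sr R r
    · rw [Lam_sg_mem hyS]
      have hyS' : y ∈ Sr R (max r (max r1 r2)) := by
        obtain ⟨z, hz1, hz2⟩ := hyS
        exact ⟨z, hz1.trans (le_max_left _ _), hz2⟩
      have em : ∀ Q : Op m, Q + (F s - Q) = F s := fun Q => by abel
      rcases hn y hyS' hy with ⟨a1, _⟩ | ⟨a1, _⟩
      · have := k1 y (((le_max_left _ _).trans (le_max_right _ _)).trans a1) v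
        rwa [em] at this
      · have := k2 y (((le_max_right _ _).trans (le_max_right _ _)).trans a1) v
        rwa [em] at this
    · rw [Lam_sg_notMem hyS, map_zero, norm_zero]
      positivity
  have e0 : F 0 = A := by simp [hF]
  have e1 : F 1 = A1 := by simp [hF]
  have sA1 : star A1 = A1 := by
    rw [hA1, star_add, star_conj hPs (star_Lam _), star_conj hPs' (star_Lam _)]
  have tA1 : TRS Θ A1 :=
    ((((trs_Lam hX _).mul hPT).mul (trs_Lam hX _))).add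
      (((trs_Lam hX _).mul hPT').mul (trs_Lam hX _))
  have sF : ∀ s, star (F s) = F s := by
    intro s
    simp only [hF]
    rw [star_add, star_smul, star_smul, hAs, sA1]
    congr 2 <;> exact Complex.conj_ofReal _
  have tF : ∀ s, TRS Θ (F s) := fun s => (hAT.rsmul (1 - s)).add (tA1.rsmul s)
  have res := h5 (HS m) Θ (fun s => TR R (eA (F s))) hΘ ?_ ?_ ?_
  · simp only [e0, e1] at res
    exact res
  · have c0 : Continuous F := by
      have c1 : Continuous (fun s : ℝ => ((1 - s : ℝ) : ℂ)) :=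
        Complex.continuous_ofReal.comp (continuous_const.sub continuous_id)
      exact (c1.smul continuous_const).add (Complex.continuous_ofReal.smul continuous_const)
    have c1 : Continuous (fun s : ℝ => eA (F s)) := continuous_eA.comp c0
    exact ((continuous_const.mul c1).mul continuous_const).add continuous_const
  · intro s
    exact TR_odd hX R (eA_odd (sF s) (tF s))
  · intro s
    exact TR_ess R (eA_unitary (sF s)).1 (key s)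

end Pool.Agent.W809.FKM
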