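import Pool.Agent.W809.FKM.Top

set_option autoImplicit false

open scoped ComplexConjugate Topology
open Complex

namespace Pool.Agent.W809.FKM

variable {m : ℕ}

theorem blk_eq {L Lr Vp V : Op m} (hLL : L * L = L) (hc : L * Lr = Lr * L)
    (h1 : L * V * L = Vp - (1 - L)) (hr : Lr * Lr = Lr) :
    L * (Lr * V * Lr + (1 - Lr)) * L + (1 - L) = Lr * Vp * Lr + (1 - Lr) := by
  have e1 : L * (Lr * V * Lr) * L = Lr * (L * V * L) * Lr := by
    calc L * (Lr * V * Lr) * L = (L * Lr) * V * (Lr * L) := by noncomm_ring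
      _ = (Lr * L) * V * (L * Lr) := by rw [hc]
      _ = _ := by noncomm_ring
  have e2 : L * (1 - Lr) * L = L - L * Lr := by
    rw [mul_sub, sub_mul, mul_one, hLL, mul_assoc, ← hc, ← mul_assoc, hLL]
  have e3 : Lr * (Vp - (1 - L)) * Lr = Lr * Vp * Lr - Lr + L * Lr := by
    have : Lr * L * Lr = L * Lr := by rw [← hc, mul_assoc, hr]
    calc Lr * (Vp - (1 - L)) * Lr = Lr * Vp * Lr - Lr * Lr + Lr * L * Lr := by noncomm_ring
      _ = _ := by rw [hr, this]
  rw [mul_add, add_mul, e1, e2, h1, e3]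
  abel

theorem par_lt {E : Type} [NormedAddCommGroup E] [NormedSpace ℂ E] (F : E →L[ℂ] E) : par F < 2 :=
  Nat.mod_lt _ (by norm_num)

theorem par_unitary {E : Type} [NormedAddCommGroup E] [InnerProductSpace ℂ E] [CompleteSpace E]
    {V : E →L[ℂ] E} (hV : star V * V = 1) : par V = 0 := by
  have h : LinearMap.ker (V : E →ₗ[ℂ] E) = ⊥ := by
    rw [LinearMap.ker_eq_bot']
    intro x hx
    have h1 : (star V * V) x = x := by rw [hV]; rfl
    have h2 : (star V * V) x = star V (V x) := rfl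
    rw [← h1, h2]
    have : V x = 0 := hx
    rw [this, map_zero]
  unfold par
  rw [h]
  simp

theorem edgeb (hT : S_TOP) (hP : S_PARC) (hF : S_FIN) (hB : S_BLK) : S_EDGEB := by
  intro m Θ P P' Ω R hΘ hX hPP hPs hPT hPW hPP' hPs' hPT' hPW' hG hG'
  obtain ⟨t1, t2⟩ := hT m Θ P Ω R hΘ hX hPP hPs hPT hPW hG
  obtain ⟨t1', t2'⟩ := hT m Θ P' Ωᶜ Rᶜ hΘ hX hPP' hPs' hPT' hPW' hG'
  set L : Op m := Lam (pt ⁻¹' Ω) with hL
  have hLc : (Lam (pt ⁻¹' Ωᶜ) : Op m) = 1 - L := by rw [Set.preimage_compl, Lam_compl]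
  rw [hLc] at t1' t2' ⊢
  set Lr : Op m := Lam R with hLr
  have hLL : L * L = L := Lam_sq _
  have hrr : Lr * Lr = Lr := Lam_sq _
  have hcomm : L * Lr = Lr * L := Lam_comm _ _
  have z1 : L * (1 - L) = 0 := by rw [mul_sub, mul_one, hLL, sub_self]
  have z2 : (1 - L) * L = 0 := by rw [sub_mul, one_mul, hLL, sub_self]
  have hLL' : (1 - L) * (1 - L) = 1 - L := by rw [mul_sub, mul_one, z2, sub_zero]
  set Ap : Op m := L * P * L with hAp
  set Am : Op m := (1 - L) * P' * (1 - L) with hAm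
  have y1 : Ap * (1 - L) = 0 := by rw [hAp, mul_assoc, z1, mul_zero]
  have y2 : (1 - L) * Ap = 0 := by rw [hAp, ← mul_assoc, ← mul_assoc, z2, zero_mul, zero_mul]
  have y3 : Am * L = 0 := by rw [hAm, mul_assoc, z2, mul_zero]
  have y4 : L * Am = 0 := by rw [hAm, ← mul_assoc, ← mul_assoc, z1, zero_mul, zero_mul]
  have y5 : Ap * Am = Am * Ap := by
    have a1 : Ap * Am = 0 := by
      rw [hAp, mul_assoc, y4, mul_zero]
    have a2 : Am * Ap = 0 := by
      rw [hAm, mul_assoc, y2, mul_zero]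
    rw [a1, a2]
  set Vp : Op m := eA Ap with hVp
  set Vm : Op m := eA Am with hVm
  have hV : eA (Ap + Am) = Vp * Vm := eA_add y5
  have x1 : Vp * (1 - L) = 1 - L := eA_mul_of_mul y1
  have x2 : (1 - L) * Vp = 1 - L := mul_eA_of_mul y2
  have x3 : Vm * L = L := eA_mul_of_mul y3
  have x4 : L * Vm = L := mul_eA_of_mul y4
  have sL : star L = L := star_Lam _
  have sL' : star (1 - L) = 1 - L := by rw [star_sub, star_one, sL]
  have tL : TRS Θ L := trs_Lam hX _
  have tL' : TRS Θ (1 - L) := TRS.one.sub tL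
  have sAp : star Ap = Ap := star_conj hPs sL
  have sAm : star Am = Am := star_conj hPs' sL'
  have tAp : TRS Θ Ap := (tL.mul hPT).mul tL
  have tAm : TRS Θ Am := (tL'.mul hPT').mul tL'
  obtain ⟨u1, -⟩ := eA_unitary sAp
  obtain ⟨u2, -⟩ := eA_unitary sAm
  have oVm : OddT Θ Vm := eA_odd sAm tAm
  -- commutator of Vm
  have cVm : IsCompactOperator (Vm * Lr - Lr * Vm : Op m) := by
    have e : Vm * Lr - Lr * Vm = -(Vm * Lam Rᶜ - Lam Rᶜ * Vm) := by
      rw [Lam_compl]; noncomm_ring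
    rw [e]
    exact cpt_neg t2'
  have fVp : FiniteDimensional ℂ (LinearMap.ker ((TR R Vp : Op m) : HS m →ₗ[ℂ] HS m)) :=
    hF _ _ (TR_ess R u1 t2)
  have fVm : FiniteDimensional ℂ (LinearMap.ker ((TR R Vm : Op m) : HS m →ₗ[ℂ] HS m)) :=
    hF _ _ (TR_ess R u2 cVm)
  -- splitting along Ω
  have w1 : Vp * L = Vp - (1 - L) := by
    have : Vp = Vp * L + Vp * (1 - L) := by noncomm_ring
    rw [x1] at this
    rw [eq_sub_iff_add_eq]; exact this.symm
  have w2 : L * Vp = Vp - (1 - L) := by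
    have : Vp = L * Vp + (1 - L) * Vp := by noncomm_ring
    rw [x2] at this
    rw [eq_sub_iff_add_eq]; exact this.symm
  have w3 : Vm * (1 - L) = Vm - L := by rw [mul_sub, mul_one, x3]
  have w4 : (1 - L) * Vm = Vm - L := by rw [sub_mul, one_mul, x4]
  have v1 : L * (Vp * Vm) * L = Vp - (1 - L) := by
    rw [mul_assoc, mul_assoc, x3, w1, mul_sub, w2, z1, sub_zero]
  have v2 : (1 - L) * (Vp * Vm) * (1 - L) = Vm - L := by
    rw [← mul_assoc, x2, w4, sub_mul, w3, z1, sub_zero]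
  set V : Op m := Vp * Vm with hVdef
  have vL : V * L = L * V := by
    have a1 : V * L = Vp * L := by rw [hVdef, mul_assoc, x3]
    have a2 : L * V = Vp * L := by
      rw [hVdef, ← mul_assoc, w2, ← w1, mul_assoc, x4]
    rw [a1, a2]
  have vL2 : L * V * (1 - L) = 0 := by
    rw [← vL, mul_assoc, z1, mul_zero]
  have vL3 : (1 - L) * V * L = 0 := by
    rw [mul_assoc, vL, ← mul_assoc, z2, zero_mul]
  have b1 : L * (TR R V) * L + (1 - L) = TR R Vp := blk_eq hLL hcomm v1 hrr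
  have b2 : (1 - L) * (TR R V) * (1 - L) + L = TR R Vm := by
    have := blk_eq (L := 1 - L) (Lr := Lr) (Vp := Vm) (V := V) hLL'
      (by rw [sub_mul, mul_sub, one_mul, mul_one, hcomm]) (by rw [v2]; abel) hrr
    rw [sub_sub_cancel] at this
    exact this
  have b3 : L * (TR R V) * L + (1 - L) * (TR R V) * (1 - L) = TR R V := by
    have c1 : TR R V * L = L * TR R V := by
      change (Lr * V * Lr + (1 - Lr)) * L = L * (Lr * V * Lr + (1 - Lr))
      have : Lr * V * Lr * L = L * (Lr * V * Lr) := by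
        calc Lr * V * Lr * L = Lr * V * (Lr * L) := by noncomm_ring
          _ = Lr * (V * L) * Lr := by rw [← hcomm]; noncomm_ring
          _ = Lr * L * V * Lr := by rw [vL]; noncomm_ring
          _ = L * (Lr * V * Lr) := by rw [← hcomm]; noncomm_ring
      rw [add_mul, mul_add, this, sub_mul, mul_sub, one_mul, mul_one, hcomm]
    have c2 : L * TR R V * L = TR R V * L := by rw [← c1, mul_assoc, hLL]
    have c3 : (1 - L) * TR R V * (1 - L) = TR R V * (1 - L) := by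
      have : (1 - L) * TR R V = TR R V * (1 - L) := by
        rw [sub_mul, mul_sub, one_mul, mul_one, c1]
      rw [this, mul_assoc, hLL']
    rw [c2, c3]; noncomm_ring
  have s1 := hB (HS m) L (TR R V) hLL (by rw [b1]; exact fVp) (by rw [b2]; exact fVm)
  rw [b1, b2, b3] at s1
  -- splitting along R
  have q1 : Lr * Vm * Lr + (1 - Lr) = TR R Vm := rfl
  have q2 : (1 - Lr) * Vm * (1 - Lr) + Lr = TR Rᶜ Vm := by
    unfold TR
    rw [Lam_compl, sub_sub_cancel]
  have cVm' : IsCompactOperator (Vm * Lam Rᶜ - Lam Rᶜ * Vm : Op m) := t2'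
  have fVm' : FiniteDimensional ℂ (LinearMap.ker ((TR Rᶜ Vm : Op m) : HS m →ₗ[ℂ] HS m)) :=
    hF _ _ (TR_ess Rᶜ u2 cVm')
  have s2 := hB (HS m) Lr Vm hrr (by rw [q1]; exact fVm) (by rw [q2]; exact fVm')
  rw [q1, q2] at s2
  have sLr : star Lr = Lr := star_Lam _
  have sLr' : star (1 - Lr) = 1 - Lr := by rw [star_sub, star_one, sLr]
  have tLr : TRS Θ Lr := trs_Lam hX _
  have tLr' : TRS Θ (1 - Lr) := TRS.one.sub tLr
  have s3 : par Vm = par (Lr * Vm * Lr + (1 - Lr) * Vm * (1 - Lr)) := by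
    refine hP (HS m) Θ Vm _ hΘ oVm ((oVm.conj tLr sLr).add (oVm.conj tLr' sLr')) ?_ ?_
    · rw [u2, sub_self]; exact cpt_zero
    · have z3 : (1 - Lr) * Lr = 0 := by rw [sub_mul, one_mul, hrr, sub_self]
      have e : Lr * Vm * Lr + (1 - Lr) * Vm * (1 - Lr) - Vm =
          Lr * (Vm * Lr - Lr * Vm) - (1 - Lr) * (Vm * Lr - Lr * Vm) := by
        have e1 : Lr * (Vm * Lr - Lr * Vm) = Lr * Vm * Lr - Lr * Vm := by
          rw [mul_sub, ← mul_assoc, ← mul_assoc, hrr]
        have e2 : (1 - Lr) * (Vm * Lr - Lr * Vm) = (1 - Lr) * Vm * Lr := by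
          rw [mul_sub, ← mul_assoc, ← mul_assoc, z3, zero_mul, sub_zero]
        rw [e1, e2]; noncomm_ring
      rw [e]
      exact cpt_sub (cpt_mul_left _ cVm) (cpt_mul_left _ cVm)
  rw [par_unitary u2] at s3
  rw [← s3] at s2
  have l1 := par_lt (TR R Vm)
  have l2 := par_lt (TR Rᶜ Vm)
  have s4 : par (TR R Vm) = par (TR Rᶜ Vm) := by omega
  rw [hV, s1, t1, s4, t1']

end Pool.Agent.W809.FKM
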