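import Pool.Agent.W809.FKM.EdgeA
import Pool.Agent.W809.FKM.EdgeB

set_option autoImplicit false

open scoped ComplexConjugate Topology
open Complex

namespace Pool.Agent.W809.FKM

variable {m : ℕ}

/-- the smooth step -/
noncomputable def gst (E δ : ℝ) (t : ℝ) : ℝ := 1 - Real.smoothTransition ((t - (E - δ)) / (2 * δ))

theorem gst_smooth (E δ : ℝ) : ContDiff ℝ (⊤ : ℕ∞) (gst E δ) := by
  unfold gst
  refine contDiff_const.sub (Real.smoothTransition.contDiff.comp ?_)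
  exact (contDiff_id.sub contDiff_const).div_const _

theorem gst_one {E δ t : ℝ} (hδ : 0 < δ) (ht : t ≤ E - δ) : gst E δ t = 1 := by
  unfold gst
  rw [Real.smoothTransition.zero_of_nonpos, sub_zero]
  exact div_nonpos_of_nonpos_of_nonneg (by linarith) (by linarith)

theorem gst_zero {E δ t : ℝ} (hδ : 0 < δ) (ht : E + δ ≤ t) : gst E δ t = 0 := by
  unfold gst
  rw [Real.smoothTransition.one_of_one_le, sub_self]
  rw [le_div_iff₀ (by linarith)]
  linarith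

theorem gst_ioo {E δ t : ℝ} (hδ : 0 < δ) (ht : t ∉ Set.Ioo (E - δ) (E + δ)) :
    gst E δ t = 0 ∨ gst E δ t = 1 := by
  by_cases h : t ≤ E - δ
  · right; exact gst_one hδ h
  · left
    refine gst_zero hδ ?_
    by_contra h2
    exact ht ⟨lt_of_not_ge h, lt_of_not_ge h2⟩

/-- data of a gapped Hamiltonian -/
theorem gapped {H : Op m} {E δ : ℝ} (hH : IsSelfAdjoint H) (hδ : 0 < δ)
    (hs : ∀ t ∈ Set.Ioo (E - δ) (E + δ), t ∉ spectrum ℝ H) :
    cfc (gst E δ) H = fermi H E ∧ fermi H E * fermi H E = fermi H E ∧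
      star (fermi H E) = fermi H E ∧
      ∀ k : ℝ → ℝ, (∀ t, t ∉ Set.Ioo (E - δ) (E + δ) → k t = 0) → cfc k H = 0 := by
  have hc : Continuous (gst E δ) := (gst_smooth E δ).continuous
  have e1 : cfc (gst E δ) H = fermi H E := by
    unfold fermi
    refine cfc_congr fun t ht => ?_
    have h : t ∉ Set.Ioo (E - δ) (E + δ) := fun h' => hs t h' ht
    by_cases h1 : t ≤ E - δ
    · rw [gst_one hδ h1, if_pos (by linarith)]
    · have h2 : E + δ ≤ t := by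
        by_contra h3
        exact h ⟨lt_of_not_ge h1, lt_of_not_ge h3⟩
      rw [gst_zero hδ h2, if_neg (by linarith)]
  refine ⟨e1, ?_, ?_, ?_⟩
  · rw [← e1, ← cfc_mul (gst E δ) (gst E δ) H hc.continuousOn hc.continuousOn]
    refine cfc_congr fun t ht => ?_
    have h : t ∉ Set.Ioo (E - δ) (E + δ) := fun h' => hs t h' ht
    rcases gst_ioo hδ h with h1 | h1 <;> simp [h1]
  · rw [← e1]
    exact cfc_predicate (gst E δ) H
  · intro k hk
    have : cfc k H = cfc (fun _ : ℝ => (0 : ℝ)) H :=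
      cfc_congr fun t ht => hk t (fun h' => hs t h' ht)
    rw [this]
    exact cfc_const_zero ℝ H

theorem small_of_div {D : Op m} {ρ : Lat → ℝ} (hρ : ∀ x, 0 ≤ ρ x) {C : ℝ}
    (h : ∀ x v, ‖D (sg x v)‖ ≤ C / (1 + ρ x) ^ 1 * ‖v‖) :
    ∀ ε : ℝ, 0 < ε → ∃ r : ℝ, ∀ x, r ≤ ρ x → ∀ v, ‖D (sg x v)‖ ≤ ε * ‖v‖ := by
  intro ε hε
  refine ⟨C / ε, fun x hx v => (h x v).trans (mul_le_mul_of_nonneg_right ?_ (norm_nonneg _))⟩
  rw [pow_one, div_le_iff₀ (by linarith [hρ x])]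
  rw [div_le_iff₀ hε] at hx
  nlinarith

theorem main (hKATO : S_KATO) (hWPOL : S_WPOL) (hSHIFT : S_SHIFTB) (hTCFC : S_TCFC)
    (hEXPC : S_EXPC) (hSPEC : S_SPEC) (hWDEC : S_WDEC) (hLOC : S_LOC) (hCMP : S_CMP)
    (hINT : S_INT) (hNUCV : S_NUCV) (hFRONT : S_FRONT) (hGEO : S_GEO) (hA : S_EDGEA)
    (hB : S_EDGEB) : S_MAIN := by
  intro m Θ Hp Hm Hh Ω E hΘ hX sp sm sh lp lm lh tp tm th hΩ hΩc hI hEp hEm hN
  -- nonempty
  have ne1 : Ω.Nonempty := by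
    obtain ⟨S, ⟨α, c, w, hα, hw, rfl⟩, hS⟩ := hΩ
    refine ⟨c + w * 0, hS ⟨0, ⟨by simp, ?_⟩, rfl⟩⟩
    simp [Real.zero_rpow hα.ne']
  have ne2 : Ωᶜ.Nonempty := by
    obtain ⟨S, ⟨α, c, w, hα, hw, rfl⟩, hS⟩ := hΩc
    refine ⟨c + w * 0, hS ⟨0, ⟨by simp, ?_⟩, rfl⟩⟩
    simp [Real.zero_rpow hα.ne']
  intro ε hε
  -- the gap
  have hopen : IsOpen ((spectrum ℝ Hp ∪ spectrum ℝ Hm)ᶜ) :=
    ((spectrum.isClosed (𝕜 := ℝ) Hp).union (spectrum.isClosed (𝕜 := ℝ) Hm)).isOpen_compl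
  obtain ⟨δ0, hδ0, hball⟩ := Metric.isOpen_iff.1 hopen E (by
    simp only [Set.mem_compl_iff, Set.mem_union, not_or]; exact ⟨hEp, hEm⟩)
  set δ : ℝ := min δ0 ε with hδdef
  have hδ : 0 < δ := lt_min hδ0 hε
  have hgap : ∀ t ∈ Set.Ioo (E - δ) (E + δ), t ∉ spectrum ℝ Hp ∧ t ∉ spectrum ℝ Hm := by
    intro t ht
    have h1 : t ∈ Metric.ball E δ0 := by
      rw [Metric.mem_ball, Real.dist_eq, abs_lt]
      have := min_le_left δ0 ε
      constructor <;> linarith [ht.1, ht.2]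
    have h2 := hball h1
    simp only [Set.mem_compl_iff, Set.mem_union, not_or] at h2
    exact h2
  set g : ℝ → ℝ := gst E δ with hg
  have gsm : ContDiff ℝ (⊤ : ℕ∞) g := gst_smooth E δ
  have gc : Continuous g := gsm.continuous
  obtain ⟨p1, p2, p3, p4⟩ := gapped sp hδ (fun t ht => (hgap t ht).1)
  obtain ⟨q1, q2, q3, q4⟩ := gapped sm hδ (fun t ht => (hgap t ht).2)
  have wi : ∀ H : Op m, IsSelfAdjoint H → Loc H → Wi (cfc g H) := fun H hH hL => by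
    obtain ⟨C, hC⟩ := hLOC m H hH hL g gsm 3
    exact hWDEC m _ C hC
  have wp : Wi (fermi Hp E) := by rw [← p1]; exact wi Hp sp lp
  have wm : Wi (fermi Hm E) := by rw [← q1]; exact wi Hm sm lm
  have wh : Wi (cfc g Hh) := wi Hh sh lh
  have tfp : TRS Θ (fermi Hp E) := by rw [← p1]; exact hTCFC _ Θ Hp g hΘ sp tp gc
  have tfm : TRS Θ (fermi Hm E) := by rw [← q1]; exact hTCFC _ Θ Hm g hΘ sm tm gc
  have tfh : TRS Θ (cfc g Hh) := hTCFC _ Θ Hh g hΘ sh th gc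
  have sA : star (cfc g Hh) = cfc g Hh := cfc_predicate g Hh
  -- the interface bounds
  have hI' : Interface Hm Hp Hh Ωᶜ := by
    obtain ⟨ν, hν, hk⟩ := hI
    refine ⟨ν, hν, ?_⟩
    rw [frontier_compl, compl_compl]
    have : Hh - Lam (pt ⁻¹' Ωᶜ) * Hm * Lam (pt ⁻¹' Ωᶜ) - Lam (pt ⁻¹' Ω) * Hp * Lam (pt ⁻¹' Ω) =
        Hh - Lam (pt ⁻¹' Ω) * Hp * Lam (pt ⁻¹' Ω) - Lam (pt ⁻¹' Ωᶜ) * Hm * Lam (pt ⁻¹' Ωᶜ) := by
      abel
    rw [this]
    exact hk
  have lip : ∀ (S : Set ℂ) (x y : Lat),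
      |Metric.infDist (pt x) S - Metric.infDist (pt y) S| ≤ dst x y := by
    intro S x y
    have h1 := infDist_lip S x y
    have h2 := infDist_lip S y x
    rw [dst_comm y x] at h2
    rw [abs_le]; constructor <;> linarith
  obtain ⟨c1, C1, hc1, hk1⟩ := hINT m Hp Hm Hh Ω lp lm lh hI ne1 ne2
  obtain ⟨c2, C2, hc2, hk2⟩ := hINT m Hm Hp Hh Ωᶜ lm lp lh hI' ne2 (by rwa [compl_compl])
  rw [compl_compl] at hk2
  have cmp1 := fun k hk => hCMP m Hh Hp (fun x => Metric.infDist (pt x) Ωᶜ) sh sp lp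
    (fun x => Metric.infDist_nonneg) (lip Ωᶜ) ⟨c1, C1, hc1, hk1⟩ k hk
  have cmp2 := fun k hk => hCMP m Hh Hm (fun x => Metric.infDist (pt x) Ω) sh sm lm
    (fun x => Metric.infDist_nonneg) (lip Ω) ⟨c2, C2, hc2, hk2⟩ k hk
  obtain ⟨R, ⟨cR, β, hcR, hβ, hR⟩, hG, hG'⟩ := hGEO Ω hΩ hΩc
  -- the parity
  have par1 : par (TR R (eA (cfc g Hh))) = 1 := by
    rw [hA m Θ (cfc g Hh) (fermi Hp E) (fermi Hm E) Ω R hΘ hX sA tfh wh p2 p3 tfp wp q2 q3 tfm wm
      ?_ ?_ hG, hB m Θ (fermi Hp E) (fermi Hm E) Ω R hΘ hX p2 p3 tfp wp q2 q3 tfm wm hG hG']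
    · have h1 := par_lt (fermi Hp E * U * fermi Hp E + (1 - fermi Hp E))
      have h2 := par_lt (fermi Hm E * U * fermi Hm E + (1 - fermi Hm E))
      unfold N2 at hN
      omega
    · obtain ⟨C, hC⟩ := cmp1 g gsm 1
      refine small_of_div (fun x => Metric.infDist_nonneg) (C := C) ?_
      rw [p1] at hC
      exact hC
    · obtain ⟨C, hC⟩ := cmp2 g gsm 1
      refine small_of_div (fun x => Metric.infDist_nonneg) (C := C) ?_
      rw [q1] at hC
      exact hC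
  set V : Op m := eA (cfc g Hh) with hV
  obtain ⟨u1, u2⟩ := eA_unitary sA
  have oV : OddT Θ V := eA_odd sA tfh
  -- nuclearity
  set k1 : ℝ → ℝ := fun t => Real.cos (2 * Real.pi * g t) - 1 with hk1d
  set k2 : ℝ → ℝ := fun t => Real.sin (2 * Real.pi * g t) with hk2d
  have k1s : ContDiff ℝ (⊤ : ℕ∞) k1 :=
    (Real.contDiff_cos.comp (contDiff_const.mul gsm)).sub contDiff_const
  have k2s : ContDiff ℝ (⊤ : ℕ∞) k2 := Real.contDiff_sin.comp (contDiff_const.mul gsm)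
  have k1z : ∀ t, t ∉ Set.Ioo (E - δ) (E + δ) → k1 t = 0 := by
    intro t ht
    rcases gst_ioo hδ ht with h | h
    · simp only [hk1d]; rw [hg, h]; simp
    · simp only [hk1d]; rw [hg, h]; simp
  have k2z : ∀ t, t ∉ Set.Ioo (E - δ) (E + δ) → k2 t = 0 := by
    intro t ht
    rcases gst_ioo hδ ht with h | h
    · simp only [hk2d]; rw [hg, h]; simp
    · simp only [hk2d]; rw [hg, h]; simp
  set B : Op m := cfc k1 Hh + I • cfc k2 Hh with hBd
  have hVB : V = 1 + B := by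
    rw [hV, hEXPC _ Hh g sh gc, hBd]
    have e : cfc k1 Hh = cfc (fun t => Real.cos (2 * Real.pi * g t)) Hh - 1 := by
      have hcc : Continuous (fun t => Real.cos (2 * Real.pi * g t)) :=
        Real.continuous_cos.comp (continuous_const.mul gc)
      have h1 := cfc_sub (R := ℝ) (fun t => Real.cos (2 * Real.pi * g t)) (fun _ => (1:ℝ)) Hh
        hcc.continuousOn continuous_const.continuousOn
      rw [cfc_const_one ℝ Hh] at h1
      exact h1
    rw [e]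
    abel
  have kbB : ∀ N : ℕ, ∃ C, KB B (fun x y => C / (1 + dst x y) ^ N) := by
    intro N
    obtain ⟨D1, hD1⟩ := hLOC m Hh sh lh k1 k1s N
    obtain ⟨D2, hD2⟩ := hLOC m Hh sh lh k2 k2s N
    refine ⟨D1 + D2, fun x y v => ?_⟩
    have e0 : ‖(B (sg y v)) x‖ ≤ ‖(cfc k1 Hh (sg y v)) x‖ + ‖(cfc k2 Hh (sg y v)) x‖ := by
      have e1 : (B (sg y v)) x = (cfc k1 Hh (sg y v)) x + I • (cfc k2 Hh (sg y v)) x := rfl
      rw [e1]
      refine (norm_add_le _ _).trans ?_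
      rw [norm_smul, Complex.norm_I, one_mul]
    refine e0.trans ((add_le_add (hD1 x y v) (hD2 x y v)).trans (le_of_eq ?_))
    simp only
    rw [add_div, add_mul]
  have colB : ∀ N : ℕ, ∃ C, ∀ x v, ‖B (sg x v)‖ ≤
      C / (1 + Metric.infDist (pt x) (frontier Ω)) ^ N * ‖v‖ := by
    intro N
    obtain ⟨a1, ha1⟩ := cmp1 k1 k1s N
    obtain ⟨a2, ha2⟩ := cmp1 k2 k2s N
    obtain ⟨b1, hb1⟩ := cmp2 k1 k1s N
    obtain ⟨b2, hb2⟩ := cmp2 k2 k2s N
    simp only [p4 k1 k1z, p4 k2 k2z, sub_zero] at ha1 ha2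
    simp only [q4 k1 k1z, q4 k2 k2z, sub_zero] at hb1 hb2
    refine ⟨max (a1 + a2) (b1 + b2), fun x v => ?_⟩
    have e0 : ‖B (sg x v)‖ ≤ ‖cfc k1 Hh (sg x v)‖ + ‖cfc k2 Hh (sg x v)‖ := by
      change ‖cfc k1 Hh (sg x v) + I • cfc k2 Hh (sg x v)‖ ≤ _
      refine (norm_add_le _ _).trans ?_
      rw [norm_smul, Complex.norm_I, one_mul]
    rw [hFRONT Ω (pt x) ne1 ne2]
    by_cases hx : pt x ∈ Ω
    · rw [Metric.infDist_zero_of_mem hx, max_eq_right Metric.infDist_nonneg]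
      have hpos : 0 < (1 + Metric.infDist (pt x) Ωᶜ) ^ N := by
        have := Metric.infDist_nonneg (x := pt x) (s := Ωᶜ); positivity
      refine e0.trans ((add_le_add (ha1 x v) (ha2 x v)).trans ?_)
      rw [← add_mul, ← add_div]
      exact mul_le_mul_of_nonneg_right (div_le_div_of_nonneg_right (le_max_left _ _) hpos.le)
        (norm_nonneg _)
    · have hx' : pt x ∈ Ωᶜ := hx
      rw [Metric.infDist_zero_of_mem hx', max_eq_left Metric.infDist_nonneg]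
      have hpos : 0 < (1 + Metric.infDist (pt x) Ω) ^ N := by
        have := Metric.infDist_nonneg (x := pt x) (s := Ω); positivity
      refine e0.trans ((add_le_add (hb1 x v) (hb2 x v)).trans ?_)
      rw [← add_mul, ← add_div]
      exact mul_le_mul_of_nonneg_right (div_le_div_of_nonneg_right (le_max_right _ _) hpos.le)
        (norm_nonneg _)
  have nB : Nuc ((1 - Lam R) * B * Lam R : Op m) :=
    hNUCV m B R (fun x => Metric.infDist (pt x) (frontier Ω)) (fun x => Metric.infDist_nonneg)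
      kbB colB ⟨cR, β, hcR, hβ, hR⟩
  have nV : Nuc ((1 - Lam R) * V * Lam R : Op m) := by
    have e : (1 - Lam R) * V * Lam R = (1 - Lam R) * B * Lam R := by
      have z : (1 - Lam R : Op m) * Lam R = 0 := by rw [sub_mul, one_mul, Lam_sq, sub_self]
      rw [hVB, mul_add, mul_one, add_mul, z, zero_add]
    rw [e]; exact nB
  obtain ⟨W, Q, w1, w2, w3, w4, w5, w6, w7, w8⟩ := hWPOL (HS m) Θ V (Lam R) hΘ u1 u2 oV
    (Lam_sq R) (star_Lam R) (trs_Lam hX R) nV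
  obtain ⟨K, e, e1, e2, e3⟩ := hSHIFT (HS m) Θ V (Lam R) W Q hΘ u1 oV (Lam_sq R) (star_Lam R)
    (trs_Lam hX R) nV w1 w2 w3 w4 w5 w6 w7 w8 par1
  obtain ⟨x, hx1, hx2⟩ := hKATO (HS m) V K e u1 u2 e1 e2 e3
  obtain ⟨μ, m1, m2, m3⟩ := hSPEC (HS m) Hh g (E - δ) (E + δ) x sh gsm
    (fun t ht => gst_ioo hδ ht) hx1 hx2
  refine ⟨x, μ, m1, m2, lt_of_lt_of_le m3 (MeasureTheory.measure_mono ?_)⟩
  have : δ ≤ ε := min_le_right _ _
  exact Set.Ioo_subset_Ioo (by linarith) (by linarith)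

end Pool.Agent.W809.FKM
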