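import Pool.Agent.W809.FKM.Basic2

/-!
# Exact statements of the steps (MP_120ee9_mp)
-/

set_option autoImplicit false

open scoped ComplexConjugate Topology
open Complex

namespace Pool.Agent.W809.FKM

/-! ## abstract Hilbert space statements -/

/-- wave operator argument: a unitary which is a shift up to a nuclear operator has a vector
with `⟨x, Vⁿ x⟩ = 0` for all `n ≥ 1` -/
def S_KATO : Prop :=
  ∀ (E : Type) [NormedAddCommGroup E] [InnerProductSpace ℂ E] [CompleteSpace E]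
    (V K : E →L[ℂ] E) (e : ℕ → E),
    star V * V = 1 → V * star V = 1 → Nuc K → Orthonormal ℂ e →
    (∀ n, V (e n) = e (n + 1) + K (e n)) →
    ∃ x : E, ‖x‖ = 1 ∧ ∀ n : ℕ, 1 ≤ n → inner ℂ x ((V ^ n) x) = 0

/-- nuclear operators form an ideal -/
def S_NID : Prop :=
  ∀ (E : Type) [NormedAddCommGroup E] [InnerProductSpace ℂ E] [CompleteSpace E],
    (∀ K A : E →L[ℂ] E, Nuc K → Nuc (A * K)) ∧ (∀ K A : E →L[ℂ] E, Nuc K → Nuc (K * A)) ∧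
    (∀ K L : E →L[ℂ] E, Nuc K → Nuc L → Nuc (K + L)) ∧
    (∀ K : E →L[ℂ] E, Nuc K → Nuc (star K)) ∧
    (∀ K : E →L[ℂ] E, Nuc K → IsCompactOperator K) ∧
    (∀ K : E →L[ℂ] E, FiniteDimensional ℂ (LinearMap.range (K : E →ₗ[ℂ] E)) → Nuc K)

/-- the partial isometry `W = T φ(T*T)` -/
def S_WPOL : Prop :=
  ∀ (E : Type) [NormedAddCommGroup E] [InnerProductSpace ℂ E] [CompleteSpace E]
    (Θ : E ≃ₗᵢ⋆[ℂ] E) (V L : E →L[ℂ] E), (∀ x, Θ (Θ x) = -x) →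
    star V * V = 1 → V * star V = 1 → OddT Θ V → L * L = L → star L = L → TRS Θ L →
    Nuc ((1 - L) * V * L) →
    ∃ W Q : E →L[ℂ] E, Q * Q = Q ∧ star Q = Q ∧
      (∀ x, Q x = x ↔ (L * V * L + (1 - L)) x = 0) ∧
      FiniteDimensional ℂ (LinearMap.range (Q : E →ₗ[ℂ] E)) ∧
      star W * W = 1 - Q ∧ OddT Θ W ∧ W * L = L * W ∧ Nuc (W - (L * V * L + (1 - L)))

/-- the shift: if the kernel is odd-dimensional then `V` is a shift up to a nuclear operator -/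
def S_SHIFTB : Prop :=
  ∀ (E : Type) [NormedAddCommGroup E] [InnerProductSpace ℂ E] [CompleteSpace E]
    (Θ : E ≃ₗᵢ⋆[ℂ] E) (V L W Q : E →L[ℂ] E), (∀ x, Θ (Θ x) = -x) →
    star V * V = 1 → OddT Θ V → L * L = L → star L = L → TRS Θ L →
    Nuc ((1 - L) * V * L) →
    Q * Q = Q → star Q = Q → (∀ x, Q x = x ↔ (L * V * L + (1 - L)) x = 0) →
    FiniteDimensional ℂ (LinearMap.range (Q : E →ₗ[ℂ] E)) →
    star W * W = 1 - Q → OddT Θ W → W * L = L * W → Nuc (W - (L * V * L + (1 - L))) →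
    par (L * V * L + (1 - L)) = 1 →
    ∃ (K : E →L[ℂ] E) (e : ℕ → E), Nuc K ∧ Orthonormal ℂ e ∧
      ∀ n, V (e n) = e (n + 1) + K (e n)

/-- rank of an alternating form is even -/
def S_ALT : Prop :=
  ∀ (V : Type) [AddCommGroup V] [Module ℂ V] [FiniteDimensional ℂ V] (B : V →ₗ[ℂ] V →ₗ[ℂ] ℂ),
    (∀ x, B x x = 0) →
    Module.finrank ℂ V % 2 = Module.finrank ℂ (LinearMap.ker B) % 2

/-- local constancy of the parity -/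
def S_PLOC : Prop :=
  ∀ (E : Type) [NormedAddCommGroup E] [InnerProductSpace ℂ E] [CompleteSpace E]
    (Θ : E ≃ₗᵢ⋆[ℂ] E) (F : E →L[ℂ] E), (∀ x, Θ (Θ x) = -x) → OddT Θ F →
    IsCompactOperator (star F * F - 1 : E →L[ℂ] E) →
    ∃ δ : ℝ, 0 < δ ∧ ∀ G : E →L[ℂ] E, OddT Θ G → ‖G - F‖ < δ → par G = par F

/-- constancy of the parity along paths -/
def S_PAR : Prop :=
  ∀ (E : Type) [NormedAddCommGroup E] [InnerProductSpace ℂ E] [CompleteSpace E]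
    (Θ : E ≃ₗᵢ⋆[ℂ] E) (F : ℝ → E →L[ℂ] E), (∀ x, Θ (Θ x) = -x) → Continuous F →
    (∀ s, OddT Θ (F s)) →
    (∀ s, IsCompactOperator (star (F s) * F s - 1 : E →L[ℂ] E)) → par (F 0) = par (F 1)

/-- stability under compact perturbations -/
def S_PARC : Prop :=
  ∀ (E : Type) [NormedAddCommGroup E] [InnerProductSpace ℂ E] [CompleteSpace E]
    (Θ : E ≃ₗᵢ⋆[ℂ] E) (F G : E →L[ℂ] E), (∀ x, Θ (Θ x) = -x) → OddT Θ F → OddT Θ G →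
    IsCompactOperator (star F * F - 1 : E →L[ℂ] E) →
    IsCompactOperator (G - F : E →L[ℂ] E) → par F = par G

/-- finite-dimensional kernel -/
def S_FIN : Prop :=
  ∀ (E : Type) [NormedAddCommGroup E] [InnerProductSpace ℂ E] [CompleteSpace E]
    (F : E →L[ℂ] E), IsCompactOperator (star F * F - 1 : E →L[ℂ] E) →
    FiniteDimensional ℂ (LinearMap.ker (F : E →ₗ[ℂ] E))

/-- `dim ker (1 + XY) = dim ker (1 + YX)` -/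
def S_XY : Prop :=
  ∀ (E : Type) [NormedAddCommGroup E] [InnerProductSpace ℂ E] [CompleteSpace E]
    (X Y : E →L[ℂ] E), par (1 + X * Y) = par (1 + Y * X)

/-- kernel of a block diagonal operator -/
def S_BLK : Prop :=
  ∀ (E : Type) [NormedAddCommGroup E] [InnerProductSpace ℂ E] [CompleteSpace E]
    (L F : E →L[ℂ] E), L * L = L →
    FiniteDimensional ℂ (LinearMap.ker ((L * F * L + (1 - L) : E →L[ℂ] E) : E →ₗ[ℂ] E)) →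
    FiniteDimensional ℂ
      (LinearMap.ker (((1 - L) * F * (1 - L) + L : E →L[ℂ] E) : E →ₗ[ℂ] E)) →
    par (L * F * L + (1 - L) * F * (1 - L)) =
      (par (L * F * L + (1 - L)) + par ((1 - L) * F * (1 - L) + L)) % 2

/-- `e^{2πi g(H)} = cos(2πg)(H) + i sin(2πg)(H)` -/
def S_EXPC : Prop :=
  ∀ (E : Type) [NormedAddCommGroup E] [InnerProductSpace ℂ E] [CompleteSpace E]
    (H : E →L[ℂ] E) (g : ℝ → ℝ), IsSelfAdjoint H → Continuous g →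
    eA (cfc g H) = cfc (fun t => Real.cos (2 * Real.pi * g t)) H +
      I • cfc (fun t => Real.sin (2 * Real.pi * g t)) H

/-- a vector with `⟨x, e^{2πi n g(H)} x⟩ = 0` has absolutely continuous spectral measure -/
def S_SPEC : Prop :=
  ∀ (E : Type) [NormedAddCommGroup E] [InnerProductSpace ℂ E] [CompleteSpace E]
    (H : E →L[ℂ] E) (g : ℝ → ℝ) (a b : ℝ) (x : E), IsSelfAdjoint H →
    ContDiff ℝ (⊤ : ℕ∞) g → (∀ t, t ∉ Set.Ioo a b → g t = 0 ∨ g t = 1) → ‖x‖ = 1 →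
    (∀ n : ℕ, 1 ≤ n → inner ℂ x (((eA (cfc g H)) ^ n) x) = 0) →
    ∃ μ : MeasureTheory.Measure ℝ, IsSpecMeas H x μ ∧
      μ.AbsolutelyContinuous MeasureTheory.volume ∧ 0 < μ (Set.Ioo a b)

/-- intertwining relations pass to the functional calculus (`Φ` only real linear, so that it can
be complex linear or antilinear) -/
def S_INTW : Prop :=
  ∀ (E : Type) [NormedAddCommGroup E] [InnerProductSpace ℂ E] [CompleteSpace E]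
    (Φ : E → E) (H H' : E →L[ℂ] E) (f : ℝ → ℝ), Continuous Φ → (∀ x y, Φ (x + y) = Φ x + Φ y) →
    (∀ (c : ℝ) x, Φ ((c : ℂ) • x) = (c : ℂ) • Φ x) → IsSelfAdjoint H → IsSelfAdjoint H' →
    (∀ x, Φ (H x) = H' (Φ x)) → Continuous f → ∀ x, Φ (cfc f H x) = cfc f H' (Φ x)

/-- `Θ` commutes with `g(H)` -/
def S_TCFC : Prop :=
  ∀ (E : Type) [NormedAddCommGroup E] [InnerProductSpace ℂ E] [CompleteSpace E]
    (Θ : E ≃ₗᵢ⋆[ℂ] E) (H : E →L[ℂ] E) (g : ℝ → ℝ), (∀ x, Θ (Θ x) = -x) →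
    IsSelfAdjoint H → TRS Θ H → Continuous g → TRS Θ (cfc g H)

/-! ## kernels on the lattice -/

def S_SCHUR : Prop :=
  ∀ (m : ℕ) (B : Op m) (b : Lat → ℝ), (∀ z, 0 ≤ b z) → Summable b →
    KB B (fun x y => b (x - y)) → ‖B‖ ≤ ∑' z, b z

def S_WALG : Prop :=
  ∀ m : ℕ, (∀ B C : Op m, Wi B → Wi C → Wi (B * C)) ∧ (∀ B C : Op m, Wi B → Wi C → Wi (B + C)) ∧
    (∀ B : Op m, Wi B → Wi (star B)) ∧ (∀ (c : ℂ) (B : Op m), Wi B → Wi (c • B)) ∧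
    (∀ (f : Lat → ℂ) (C : ℝ), (∀ x, ‖f x‖ ≤ C) → Wi (M f : Op m))

/-- decay faster than `(1+|x-y|)^{-3}` implies `Wi` -/
def S_WDEC : Prop :=
  ∀ (m : ℕ) (B : Op m) (C : ℝ), KB B (fun x y => C / (1 + dst x y) ^ 3) → Wi B

def S_CPT : Prop :=
  ∀ (m : ℕ) (B : Op m), Wi B →
    (∀ ε : ℝ, 0 < ε → ∃ r : ℝ, ∀ y, r ≤ ‖pt y‖ → ∀ v, ‖B (sg y v)‖ ≤ ε * ‖v‖) →
    IsCompactOperator B

def S_TAIL : Prop :=
  ∀ (m : ℕ) (B : Op m), Wi B → ∃ (C : ℝ) (t : ℝ → ℝ), 0 ≤ C ∧ (∀ r, 0 ≤ t r) ∧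
    Filter.Tendsto t Filter.atTop (𝓝 0) ∧
    ∀ (D : Op m) (x : Lat) (r ε : ℝ), 0 ≤ ε →
      (∀ y, dst x y ≤ r → ∀ w, ‖D (sg y w)‖ ≤ ε * ‖w‖) →
      ∀ v, ‖D (B (sg x v))‖ ≤ (C * ε + ‖D‖ * t r) * ‖v‖

def S_COMM1 : Prop :=
  ∀ (m : ℕ) (B : Op m) (R : Set Lat), Wi B →
    (∀ r : ℝ, 0 < r → IsCompactOperator (B * Lam (Sr R r) : Op m)) →
    IsCompactOperator (B * Lam R - Lam R * B : Op m)

def S_COMM2 : Prop :=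
  ∀ (m : ℕ) (A : Op m) (R : Set Lat), Wi A →
    (∀ r : ℝ, 0 < r → IsCompactOperator ((A * A - A) * Lam (Sr R r) : Op m)) →
    IsCompactOperator (eA A * Lam R - Lam R * eA A : Op m)

def S_SVC : Prop :=
  ∀ (m : ℕ) (B : Op m) (f : Lat → ℂ) (C : ℝ), Wi B → SV f → (∀ x, ‖f x‖ ≤ C) →
    IsCompactOperator (B * M f - M f * B : Op m)

def S_NUCK : Prop :=
  ∀ (m : ℕ) (K : Op m) (k : Lat → Lat → ℝ), (∀ x y, 0 ≤ k x y) →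
    Summable (fun p : Lat × Lat => k p.1 p.2) → KB K k → Nuc K

def S_SUM : Prop := Summable (fun z : Lat => (1 + ‖pt z‖) ^ (-3 : ℝ))

def S_NUCV : Prop :=
  ∀ (m : ℕ) (B : Op m) (R : Set Lat) (d : Lat → ℝ), (∀ x, 0 ≤ d x) →
    (∀ N : ℕ, ∃ C, KB B (fun x y => C / (1 + dst x y) ^ N)) →
    (∀ N : ℕ, ∃ C, ∀ x v, ‖B (sg x v)‖ ≤ C / (1 + d x) ^ N * ‖v‖) →
    (∃ c β : ℝ, 0 < c ∧ 0 < β ∧ ∀ x ∈ R, ∀ y ∉ R, c * (1 + ‖pt x‖) ^ β ≤ 1 + dst x y + d x) →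
    Nuc ((1 - Lam R) * B * Lam R : Op m)

/-! ## functional calculus of local operators -/

def S_FOUR : Prop :=
  ∀ (g : ℝ → ℝ) (r : ℝ), ContDiff ℝ (⊤ : ℕ∞) g → 0 < r →
    ∃ c : ℤ → ℂ, (∀ k : ℕ, ∃ C : ℝ, ∀ n : ℤ, ‖c n‖ * (1 + |(n : ℝ)|) ^ k ≤ C) ∧
      ∀ t : ℝ, |t| ≤ r → HasSum (fun n : ℤ => c n * exp (I * (n * (Real.pi / (2 * r)) * t)))
        (g t : ℂ)

/-- `g(H) = Σ c_n e^{i n ω H}` -/
def S_FCFC : Prop :=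
  ∀ (E : Type) [NormedAddCommGroup E] [InnerProductSpace ℂ E] [CompleteSpace E]
    (H : E →L[ℂ] E) (g : ℝ → ℝ) (r : ℝ) (c : ℤ → ℂ), IsSelfAdjoint H → Continuous g → 0 < r →
    ‖H‖ ≤ r → Summable (fun n => ‖c n‖) →
    (∀ t : ℝ, |t| ≤ r → HasSum (fun n : ℤ => c n * exp (I * (n * (Real.pi / (2 * r)) * t)))
        (g t : ℂ)) →
    HasSum (fun n : ℤ => c n • NormedSpace.exp ((I * (n * (Real.pi / (2 * r)) : ℂ)) • H)) (cfc g H)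

/-- arithmetic of rapidly decaying coefficients -/
def S_ARI : Prop :=
  ∀ c : ℤ → ℂ, (∀ k : ℕ, ∃ C : ℝ, ∀ n : ℤ, ‖c n‖ * (1 + |(n : ℝ)|) ^ k ≤ C) →
    Summable (fun n => ‖c n‖) ∧
    ∀ a κ : ℝ, 0 ≤ a → 0 < κ → ∀ N : ℕ, ∃ C : ℝ, ∀ ρ : ℝ, 0 ≤ ρ →
      ∑' n : ℤ, ‖c n‖ * min 1 (Real.exp (a * |(n : ℝ)| - κ * ρ)) ≤ C / (1 + ρ) ^ N

def S_ULOC : Prop :=
  ∀ (m : ℕ) (H : Op m), Loc H → ∃ c A : ℝ, 0 < c ∧ 0 ≤ A ∧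
    ∀ (ρ : Lat → ℝ) (C : ℝ), (∀ x, |ρ x| ≤ C) → (∀ x y, |ρ x - ρ y| ≤ c * dst x y) →
      ∀ t : ℝ, ‖(M (fun x => (Real.exp (ρ x) : ℂ)) * NormedSpace.exp ((I * t) • H) *
        M (fun x => (Real.exp (-ρ x) : ℂ)) : Op m)‖ ≤ Real.exp (A * |t|)

def S_LOC : Prop :=
  ∀ (m : ℕ) (H : Op m), IsSelfAdjoint H → Loc H → ∀ g : ℝ → ℝ, ContDiff ℝ (⊤ : ℕ∞) g →
    ∀ N : ℕ, ∃ C, KB (cfc g H) (fun x y => C / (1 + dst x y) ^ N)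

def S_CMP : Prop :=
  ∀ (m : ℕ) (H H' : Op m) (ρ : Lat → ℝ), IsSelfAdjoint H → IsSelfAdjoint H' → Loc H' →
    (∀ x, 0 ≤ ρ x) → (∀ x y, |ρ x - ρ y| ≤ dst x y) →
    (∃ c C : ℝ, 0 < c ∧ KB (H - H') (fun x y => C * Real.exp (-(c * (dst x y + ρ y))))) →
    ∀ g : ℝ → ℝ, ContDiff ℝ (⊤ : ℕ∞) g → ∀ N : ℕ, ∃ C, ∀ x v,
      ‖(cfc g H - cfc g H') (sg x v)‖ ≤ C / (1 + ρ x) ^ N * ‖v‖

def S_INT : Prop :=
  ∀ (m : ℕ) (Hp Hm Hh : Op m) (Ω : Set ℂ), Loc Hp → Loc Hm → Loc Hh →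
    Interface Hp Hm Hh Ω → Ω.Nonempty → Ωᶜ.Nonempty →
    ∃ c C : ℝ, 0 < c ∧
      KB (Hh - Hp) (fun x y => C * Real.exp (-(c * (dst x y + Metric.infDist (pt y) Ωᶜ))))

/-! ## geometry -/

/-- `infDist` to the frontier -/
def S_FRONT : Prop :=
  ∀ (Ω : Set ℂ) (x : ℂ), Ω.Nonempty → Ωᶜ.Nonempty →
    Metric.infDist x (frontier Ω) = max (Metric.infDist x Ω) (Metric.infDist x Ωᶜ)

/-- the ray in direction `w` is deep inside `Ω` -/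
def Deep (Ω : Set ℂ) (w : ℂ) : Prop :=
  ∃ c β C : ℝ, 0 < c ∧ 0 < β ∧ ∀ t : ℝ, 0 ≤ t → c * t ^ β - C ≤ Metric.infDist (t * w) Ωᶜ

/-- a parabolic region has a deep ray -/
def S_DEEP : Prop :=
  ∀ Ω : Set ℂ, HasPar Ω → Ωᶜ.Nonempty → ∃ w : ℂ, ‖w‖ = 1 ∧ Deep Ω w

/-- the counterclockwise angle from `w` to `z`, in `[0, 2π)` -/
noncomputable def ang (w z : ℂ) : ℝ :=
  if 0 ≤ arg (z / w) then arg (z / w) else arg (z / w) + 2 * Real.pi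

/-- a segment between the sector and its complement meets one of the two rays -/
def S_CROSS : Prop :=
  ∀ w w' x y : ℂ, ‖w‖ = 1 → ‖w'‖ = 1 → w ≠ w' → ang w x < ang w w' → ¬ ang w y < ang w w' →
    ∃ t : ℝ, 0 ≤ t ∧ (‖x - t * w‖ ≤ ‖x - y‖ ∨ ‖x - t * w'‖ ≤ ‖x - y‖)

/-- the functions `h`, `b` for a sector -/
def S_GEOH : Prop :=
  ∀ (Ω : Set ℂ) (w w' : ℂ) (R : Set Lat), ‖w‖ = 1 → ‖w'‖ = 1 → w ≠ w' →
    Deep Ω w' → Deep Ωᶜ w → (∀ x : Lat, x ≠ 0 → (x ∈ R ↔ ang w (pt x) < ang w w')) → GeoD Ω R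

/-- the complementary sector -/
def S_ANGC : Prop :=
  ∀ w w' z : ℂ, ‖w‖ = 1 → ‖w'‖ = 1 → w ≠ w' → z ≠ 0 →
    (¬ ang w z < ang w w' ↔ ang w' z < ang w' w)

def S_GEO : Prop :=
  ∀ Ω : Set ℂ, HasPar Ω → HasPar Ωᶜ → ∃ R : Set Lat,
    (∃ c β : ℝ, 0 < c ∧ 0 < β ∧ ∀ x ∈ R, ∀ y ∉ R,
      c * (1 + ‖pt x‖) ^ β ≤ 1 + dst x y + Metric.infDist (pt x) (frontier Ω)) ∧
    GeoD Ω R ∧ GeoD Ωᶜ Rᶜ

/-! ## topology -/

/-- `[e^{2πi fPf}, Λ_R]` is compact -/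
def S_TOPK : Prop :=
  ∀ (m : ℕ) (P : Op m) (R : Set Lat) (f : Lat → ℝ) (C : ℝ),
    P * P = P → Wi P → (∀ x, |f x| ≤ C) →
    (∀ r : ℝ, 0 < r → ∃ n : ℝ, ∀ x ∈ Sr R r, n ≤ ‖pt x‖ → (∀ y, dst x y ≤ r → f y = 1) ∨ f x = 0) →
    IsCompactOperator (eA (M (fun x => (f x : ℂ)) * P * M (fun x => (f x : ℂ))) * Lam R -
      Lam R * eA (M (fun x => (f x : ℂ)) * P * M (fun x => (f x : ℂ))) : Op m)

/-- first homotopy: from `1_Ω` to `h` -/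
def S_TOPA : Prop :=
  ∀ (m : ℕ) (Θ : HS m ≃ₗᵢ⋆[ℂ] HS m) (P : Op m) (Ω : Set ℂ) (R : Set Lat) (h : Lat → ℝ),
    (∀ x, Θ (Θ x) = -x) → CommX Θ → P * P = P → star P = P → TRS Θ P → Wi P →
    (∀ x, 0 ≤ h x ∧ h x ≤ 1) →
    (∀ r : ℝ, 0 < r → ∃ n : ℝ, ∀ x ∈ Sr R r, n ≤ ‖pt x‖ →
      (r ≤ Metric.infDist (pt x) Ωᶜ ∧ ∀ y, dst x y ≤ r → h y = 1) ∨
      (r ≤ Metric.infDist (pt x) Ω ∧ ∀ y, dst x y ≤ r → h y = 0)) →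
    IsCompactOperator (eA (Lam (pt ⁻¹' Ω) * P * Lam (pt ⁻¹' Ω)) * Lam R -
      Lam R * eA (Lam (pt ⁻¹' Ω) * P * Lam (pt ⁻¹' Ω)) : Op m) ∧
    IsCompactOperator (eA (M (fun x => (h x : ℂ)) * P * M (fun x => (h x : ℂ))) * Lam R -
      Lam R * eA (M (fun x => (h x : ℂ)) * P * M (fun x => (h x : ℂ))) : Op m) ∧
    par (TR R (eA (Lam (pt ⁻¹' Ω) * P * Lam (pt ⁻¹' Ω)))) =
      par (TR R (eA (M (fun x => (h x : ℂ)) * P * M (fun x => (h x : ℂ)))))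

/-- second step: from `e^{2πi hPh}` compressed to `R` to `P u P + 1 - P` -/
def S_TOPB : Prop :=
  ∀ (m : ℕ) (Θ : HS m ≃ₗᵢ⋆[ℂ] HS m) (P : Op m) (R : Set Lat) (h : Lat → ℝ),
    (∀ x, Θ (Θ x) = -x) → CommX Θ → P * P = P → star P = P → TRS Θ P → Wi P →
    (∀ x, 0 ≤ h x ∧ h x ≤ 1) → SV (fun x => (h x : ℂ)) →
    IsCompactOperator (eA (M (fun x => (h x : ℂ)) * P * M (fun x => (h x : ℂ))) * Lam R -
      Lam R * eA (M (fun x => (h x : ℂ)) * P * M (fun x => (h x : ℂ))) : Op m) →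
    par (TR R (eA (M (fun x => (h x : ℂ)) * P * M (fun x => (h x : ℂ))))) =
      par (P * M (fun x => exp (2 * Real.pi * I * (R.indicator (fun x => ((h x) ^ 2 : ℂ)) x))) * P +
        (1 - P))

/-- third step: homotopy `U e^{isb}` -/
def S_TOPC : Prop :=
  ∀ (m : ℕ) (Θ : HS m ≃ₗᵢ⋆[ℂ] HS m) (P : Op m) (b : Lat → ℝ),
    (∀ x, Θ (Θ x) = -x) → CommX Θ → P * P = P → star P = P → TRS Θ P → Wi P →
    SV (fun x => (b x : ℂ)) → (∃ C, ∀ x, |b x| ≤ C) →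
    par (P * M (fun x => exp (I * arg (pt x)) * exp (I * b x)) * P + (1 - P)) =
      par (P * U * P + (1 - P))

def S_TOP : Prop :=
  ∀ (m : ℕ) (Θ : HS m ≃ₗᵢ⋆[ℂ] HS m) (P : Op m) (Ω : Set ℂ) (R : Set Lat),
    (∀ x, Θ (Θ x) = -x) → CommX Θ → P * P = P → star P = P → TRS Θ P → Wi P → GeoD Ω R →
    par (TR R (eA (Lam (pt ⁻¹' Ω) * P * Lam (pt ⁻¹' Ω)))) = par (P * U * P + (1 - P)) ∧
    IsCompactOperator (eA (Lam (pt ⁻¹' Ω) * P * Lam (pt ⁻¹' Ω)) * Lam R -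
      Lam R * eA (Lam (pt ⁻¹' Ω) * P * Lam (pt ⁻¹' Ω)) : Op m)

/-! ## edge -/

/-- homotopy from `g(Ĥ)` to the decoupled operator -/
def S_EDGEA : Prop :=
  ∀ (m : ℕ) (Θ : HS m ≃ₗᵢ⋆[ℂ] HS m) (A P P' : Op m) (Ω : Set ℂ) (R : Set Lat),
    (∀ x, Θ (Θ x) = -x) → CommX Θ → star A = A → TRS Θ A → Wi A →
    P * P = P → star P = P → TRS Θ P → Wi P → P' * P' = P' → star P' = P' → TRS Θ P' → Wi P' →
    (∀ ε : ℝ, 0 < ε → ∃ r : ℝ, ∀ x, r ≤ Metric.infDist (pt x) Ωᶜ → ∀ v,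
      ‖(A - P) (sg x v)‖ ≤ ε * ‖v‖) →
    (∀ ε : ℝ, 0 < ε → ∃ r : ℝ, ∀ x, r ≤ Metric.infDist (pt x) Ω → ∀ v,
      ‖(A - P') (sg x v)‖ ≤ ε * ‖v‖) →
    GeoD Ω R →
    par (TR R (eA A)) = par (TR R (eA (Lam (pt ⁻¹' Ω) * P * Lam (pt ⁻¹' Ω) +
      Lam (pt ⁻¹' Ωᶜ) * P' * Lam (pt ⁻¹' Ωᶜ))))

/-- splitting and final count -/
def S_EDGEB : Prop :=
  ∀ (m : ℕ) (Θ : HS m ≃ₗᵢ⋆[ℂ] HS m) (P P' : Op m) (Ω : Set ℂ) (R : Set Lat),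
    (∀ x, Θ (Θ x) = -x) → CommX Θ →
    P * P = P → star P = P → TRS Θ P → Wi P → P' * P' = P' → star P' = P' → TRS Θ P' → Wi P' →
    GeoD Ω R → GeoD Ωᶜ Rᶜ →
    par (TR R (eA (Lam (pt ⁻¹' Ω) * P * Lam (pt ⁻¹' Ω) +
      Lam (pt ⁻¹' Ωᶜ) * P' * Lam (pt ⁻¹' Ωᶜ)))) =
      (par (P * U * P + (1 - P)) + par (P' * U * P' + (1 - P'))) % 2

/-- the theorem -/
def S_MAIN : Prop :=
  ∀ (m : ℕ) (Θ : HS m ≃ₗᵢ⋆[ℂ] HS m) (Hp Hm Hh : Op m) (Ω : Set ℂ) (E : ℝ),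
    (∀ x, Θ (Θ x) = -x) → CommX Θ →
    IsSelfAdjoint Hp → IsSelfAdjoint Hm → IsSelfAdjoint Hh → Loc Hp → Loc Hm → Loc Hh →
    TRS Θ Hp → TRS Θ Hm → TRS Θ Hh → HasPar Ω → HasPar Ωᶜ → Interface Hp Hm Hh Ω →
    E ∉ spectrum ℝ Hp → E ∉ spectrum ℝ Hm → N2 Hp E ≠ N2 Hm E → E ∈ SpecAC Hh

end Pool.Agent.W809.FKM
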