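import Pool.Agent.W809.FKM.Stms

set_option autoImplicit false

open scoped ComplexConjugate Topology
open Complex

namespace Pool.Agent.W809.FKM

theorem abs_le_one_of {h : Lat → ℝ} (hh : ∀ x, 0 ≤ h x ∧ h x ≤ 1) (x : Lat) : |h x| ≤ 1 := by
  rw [abs_le]; exact ⟨by linarith [(hh x).1], (hh x).2⟩

/-- distance to a set: a point at positive distance is not in it -/
theorem notMem_of_infDist {S : Set ℂ} {z : ℂ} (h : 0 < Metric.infDist z S) : z ∉ S := by
  intro hz
  rw [Metric.infDist_zero_of_mem hz] at h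
  exact lt_irrefl _ h

/-- points closer than the distance to a set are not in it -/
theorem notMem_of_dst {S : Set ℂ} {x y : Lat} {r : ℝ} (h : r ≤ Metric.infDist (pt x) S)
    (hd : dst x y < r) : pt y ∉ S := by
  intro hy
  have h1 := Metric.infDist_le_dist_of_mem (x := pt x) hy
  rw [Complex.dist_eq] at h1
  have : dst x y = ‖pt x - pt y‖ := rfl
  linarith

open Classical in
theorem Lam_eq_M {m : ℕ} (Ω : Set ℂ) :
    Lam (m := m) (pt ⁻¹' Ω) = M (fun x => (((if pt x ∈ Ω then (1:ℝ) else 0) : ℝ) : ℂ)) := by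
  rw [Lam]
  congr 1
  funext x
  by_cases h : pt x ∈ Ω <;> simp [h]

section

variable {m : ℕ} {Θ : HS m ≃ₗᵢ⋆[ℂ] HS m}

theorem TR_odd (hX : CommX Θ) (R : Set Lat) {V : Op m} (hV : OddT Θ V) : OddT Θ (TR R V) := by
  refine OddT.add (hV.conj (trs_Lam hX R) (star_Lam R)) ?_
  exact OddT.sub OddT.one ((trs_Lam hX R).odd (star_Lam R))

theorem TR_ess (R : Set Lat) {V : Op m} (hV : star V * V = 1)
    (hc : IsCompactOperator (V * Lam R - Lam R * V : Op m)) :
    IsCompactOperator (star (TR R V) * TR R V - 1 : Op m) :=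
  ess_of_comm hV (Lam_sq R) (star_Lam R) hc

theorem star_conj {P B : Op m} (hP : star P = P) (hB : star B = B) :
    star (B * P * B) = B * P * B := by
  rw [star_mul, star_mul, hP, hB, mul_assoc]

theorem topa (h1 : S_TOPK) (h2 : S_PAR) : S_TOPA := by
  classical
  intro m Θ P Ω R h hΘ hX hPP hPs hPT hPW hh hc
  set o : Lat → ℝ := fun x => if pt x ∈ Ω then (1:ℝ) else 0 with ho
  have ho1 : ∀ x, |o x| ≤ 1 := fun x => by
    simp only [ho]; split_ifs <;> simp
  set f : ℝ → Lat → ℝ := fun s x => (1 - s) * o x + s * h x with hf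
  have hfb : ∀ s x, |f s x| ≤ |1 - s| + |s| := by
    intro s x
    refine (abs_add_le _ _).trans (add_le_add ?_ ?_)
    · rw [abs_mul]; exact mul_le_of_le_one_right (abs_nonneg _) (ho1 x)
    · rw [abs_mul]; exact mul_le_of_le_one_right (abs_nonneg _) (abs_le_one_of hh x)
  have hK : ∀ s, IsCompactOperator (eA (M (fun x => (f s x : ℂ)) * P * M (fun x => (f s x : ℂ))) *
      Lam R - Lam R * eA (M (fun x => (f s x : ℂ)) * P * M (fun x => (f s x : ℂ))) : Op m) := by
    intro s
    refine h1 m P R (f s) _ hPP hPW (hfb s) fun r hr => ?_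
    obtain ⟨n, hn⟩ := hc (r + 1) (by linarith)
    refine ⟨n, fun x hx hxn => ?_⟩
    have hx' : x ∈ Sr R (r + 1) := by
      obtain ⟨y, hy1, hy2⟩ := hx
      exact ⟨y, by linarith, hy2⟩
    rcases hn x hx' hxn with ⟨a1, a2⟩ | ⟨a1, a2⟩
    · left
      intro y hy
      have b1 : pt y ∈ Ω := by
        by_contra hcon
        exact notMem_of_dst a1 (by linarith) hcon
      simp only [hf, ho, b1, if_true, a2 y (by linarith)]
      ring
    · right
      have b1 : pt x ∉ Ω := notMem_of_infDist (by linarith)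
      have b2 : h x = 0 := a2 x (by rw [dst_self]; linarith)
      simp only [hf, ho, b1, if_false, b2]
      ring
  have e0 : M (fun x => (f 0 x : ℂ)) = Lam (m := m) (pt ⁻¹' Ω) := by
    rw [Lam_eq_M]
    congr 1
    funext x
    simp only [hf, ho]
    push_cast
    ring
  have e1 : M (m := m) (fun x => (f 1 x : ℂ)) = M (fun x => (h x : ℂ)) := by
    congr 1
    funext x
    simp only [hf, ho]
    push_cast
    ring
  refine ⟨by simpa only [e0] using hK 0, by simpa only [e1] using hK 1, ?_⟩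
  have nb : ∀ (k : Lat → ℝ) (C : ℝ), (∀ x, |k x| ≤ C) → ∀ x, ‖((k x : ℝ) : ℂ)‖ ≤ C := by
    intro k C hk x
    rw [Complex.norm_real]; exact hk x
  have hcont : Continuous (fun s : ℝ => M (m := m) (fun x => (f s x : ℂ))) := by
    have e : (fun s : ℝ => M (m := m) (fun x => (f s x : ℂ))) = fun s : ℝ =>
        ((1 - s : ℝ) : ℂ) • M (fun x => (o x : ℂ)) + ((s : ℝ) : ℂ) • M (fun x => (h x : ℂ)) := by
      funext s
      rw [M_smul _ (nb o 1 ho1), M_smul _ (nb h 1 (abs_le_one_of hh)),
        M_add (C := ‖((1 - s : ℝ) : ℂ)‖ * 1) (D := ‖((s : ℝ) : ℂ)‖ * 1)]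
      · congr 1
        funext x
        simp only [hf]
        push_cast
        ring
      · intro x
        rw [norm_mul]
        exact mul_le_mul_of_nonneg_left (nb o 1 ho1 x) (norm_nonneg _)
      · intro x
        rw [norm_mul]
        exact mul_le_mul_of_nonneg_left (nb h 1 (abs_le_one_of hh) x) (norm_nonneg _)
    rw [e]
    have c1 : Continuous (fun s : ℝ => ((1 - s : ℝ) : ℂ)) :=
      Complex.continuous_ofReal.comp (continuous_const.sub continuous_id)
    exact (c1.smul continuous_const).add (Complex.continuous_ofReal.smul continuous_const)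
  have hstar : ∀ s, star (M (m := m) (fun x => (f s x : ℂ))) = M (fun x => (f s x : ℂ)) := by
    intro s
    rw [star_M (nb (f s) _ (hfb s))]
    simp only [Complex.conj_ofReal]
  have hTf : ∀ s, TRS Θ (M (fun x => (f s x : ℂ))) := fun s =>
    trs_M hX (nb (f s) _ (hfb s)) fun x => Complex.conj_ofReal _
  have key := h2 (HS m) Θ (fun s => TR R (eA (M (fun x => (f s x : ℂ)) * P *
      M (fun x => (f s x : ℂ))))) hΘ ?_ ?_ ?_
  · simp only [e0, e1] at key
    exact key
  · have c1 : Continuous (fun s : ℝ => eA (M (m := m) (fun x => (f s x : ℂ)) * P *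
        M (fun x => (f s x : ℂ)))) :=
      continuous_eA.comp ((hcont.mul continuous_const).mul hcont)
    exact ((continuous_const.mul c1).mul continuous_const).add continuous_const
  · intro s
    exact TR_odd hX R (eA_odd (star_conj hPs (hstar s)) (((hTf s).mul hPT).mul (hTf s)))
  · intro s
    exact TR_ess R (eA_unitary (star_conj hPs (hstar s))).1 (hK s)

theorem top (hA : S_TOPA) (hB : S_TOPB) (hC : S_TOPC) : S_TOP := by
  intro m Θ P Ω R hΘ hX hPP hPs hPT hPW hG
  obtain ⟨h, b, hh, hsv, bsv, hb, hid, hc⟩ := hG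
  obtain ⟨k1, k2, k3⟩ := hA m Θ P Ω R h hΘ hX hPP hPs hPT hPW hh hc
  refine ⟨?_, k1⟩
  rw [k3, hB m Θ P R h hΘ hX hPP hPs hPT hPW hh hsv k2,
    ← hC m Θ P b hΘ hX hPP hPs hPT hPW bsv hb]
  simp only [hid]

end

end Pool.Agent.W809.FKM
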